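import Pool.Agent.N536.MW.Conc

/-!
# Anticoncentration: a general form
-/

set_option autoImplicit false

open Finset

namespace Pool.Agent.N536.FS

open Pool.Agent.N536.MW

variable {I : Type} [Fintype I] [DecidableEq I] {n : ℕ}

/-- If for each family `g` the number of the elements of `R` among the places of `i` and `j` is
determined by the condition `A (reset i j R g)`, and `A` implies the condition `G` which is invariant
under exchanges of `i` and `j`, then the number of the families with the property `A` is at most the sum of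
the middle binomial coefficients over the families with the property `G`. -/
theorem count_sum {i j : I} (hij : i ≠ j) (A G : (Fin n → I) → Prop) [DecidablePred A]
    [DecidablePred G] (hA : ∀ g R R', A (reset i j R g) → A (reset i j R' g) →
      (pl i j g ∩ R).card = (pl i j g ∩ R').card)
    (hG : ∀ g R, G (reset i j R g) → G g) (hAG : ∀ g, A g → G g) :
    ((univ.filter A).card : ℝ) ≤ ∑ g ∈ univ.filter G,
      ((pl i j g).card.choose ((pl i j g).card / 2) : ℝ) / 2 ^ (pl i j g).card := by
  have q1 := card_pairs hij A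
  have q2 : (2 : ℝ) ^ n * ((univ.filter A).card : ℝ) ≤
      2 ^ n * ∑ g ∈ univ.filter G, ((pl i j g).card.choose ((pl i j g).card / 2) : ℝ) /
      2 ^ (pl i j g).card := by
    have q3 : (2 : ℝ) ^ n * ((univ.filter A).card : ℝ) =
        ∑ g : Fin n → I, (((univ.filter fun R : Finset (Fin n) =>
          A (reset i j R g)).card : ℕ) : ℝ) := by
      rw [← Nat.cast_sum, q1]
      push_cast
      rfl
    have q4 : ∑ g : Fin n → I, (((univ.filter fun R : Finset (Fin n) =>
          A (reset i j R g)).card : ℕ) : ℝ) = ∑ g ∈ univ.filter G,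
          (((univ.filter fun R : Finset (Fin n) => A (reset i j R g)).card : ℕ) : ℝ) := by
      symm
      refine sum_subset (subset_univ _) fun g _ hg => ?_
      rw [mem_filter] at hg
      have h9 : (univ.filter fun R : Finset (Fin n) => A (reset i j R g)) = ∅ := by
        rw [filter_eq_empty_iff]
        intro R _ h
        exact hg ⟨mem_univ _, hG g R (hAG _ h)⟩
      rw [h9, card_empty, Nat.cast_zero]
    rw [q3, q4, mul_sum]
    refine sum_le_sum fun g _ => ?_
    have h0 : (pl i j g).card ≤ n := by
      refine (card_le_univ _).trans (le_of_eq (Fintype.card_fin n))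
    have h1 : (2 : ℝ) ^ n * (((pl i j g).card.choose ((pl i j g).card / 2) : ℝ) /
        2 ^ (pl i j g).card) =
        (((pl i j g).card.choose ((pl i j g).card / 2) * 2 ^ ((pl i j g)ᶜ).card : ℕ) : ℝ) := by
      rw [card_compl, Fintype.card_fin]
      push_cast
      rw [mul_div_assoc', div_eq_iff (by positivity), mul_assoc, ← pow_add,
        Nat.sub_add_cancel h0]
      ring
    rw [h1, Nat.cast_le]
    by_cases hex : ∃ R₀ : Finset (Fin n), A (reset i j R₀ g)
    · obtain ⟨R₀, hR₀⟩ := hex
      refine le_trans (card_le_card (t := univ.filter fun R : Finset (Fin n) =>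
        (pl i j g ∩ R).card = (pl i j g ∩ R₀).card) ?_) ?_
      · intro R hR
        rw [mem_filter] at hR ⊢
        exact ⟨hR.1, hA g R R₀ hR.2 hR₀⟩
      · rw [card_inter]
        exact Nat.mul_le_mul_right _ (Nat.choose_le_middle _ _)
    · push Not at hex
      have h9 : (univ.filter fun R : Finset (Fin n) => A (reset i j R g)) = ∅ := by
        rw [filter_eq_empty_iff]
        intro R _
        exact hex R
      rw [h9, card_empty]
      exact Nat.zero_le _
  exact le_of_mul_le_mul_left q2 (by positivity)

theorem middle_le (u : ℕ) : (u.choose (u / 2) : ℝ) / 2 ^ u ≤ 1 / √((u : ℝ) + 1) := by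
  have hs : (0 : ℝ) < √((u : ℝ) + 1) := Real.sqrt_pos.2 (by positivity)
  rw [div_le_div_iff₀ (by positivity) hs, one_mul]
  rw [← pow_le_pow_iff_left₀ (by positivity) (by positivity) two_ne_zero]
  rw [mul_pow, Real.sq_sqrt (by positivity), ← pow_mul, mul_comm u 2, pow_mul]
  have h4 := middle_bound u
  have h5 : ((u : ℝ) + 1) * (u.choose (u / 2) : ℝ) ^ 2 ≤ 4 ^ u := by exact_mod_cast h4
  norm_num
  linarith

/-- **The anticoncentration inequality** in a general form. -/
theorem count_le' {i j : I} (hij : i ≠ j) (A : (Fin n → I) → Prop) [DecidablePred A]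
    (hA : ∀ g R R', A (reset i j R g) → A (reset i j R' g) →
      (pl i j g ∩ R).card = (pl i j g ∩ R').card) :
    2 * ((n : ℝ) + 1) * ((univ.filter A).card : ℝ) ^ 2 ≤
      (Fintype.card I : ℝ) * ((Fintype.card I : ℝ) ^ n) ^ 2 := by
  have key := count_sum hij A (fun _ => True) hA (fun _ _ _ => trivial) (fun _ _ => trivial)
  have hT : (univ.filter fun _ : Fin n → I => True) = univ := filter_true_of_mem fun _ _ => trivial
  rw [hT] at key
  have h2 : (∑ g : Fin n → I, ((pl i j g).card.choose ((pl i j g).card / 2) : ℝ) /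
        2 ^ (pl i j g).card) ^ 2 ≤ (Fintype.card I : ℝ) ^ n *
        ∑ g : Fin n → I, (1 : ℝ) / ((pl i j g).card + 1) := by
    have h3 := sq_sum_le_card_mul_sum_sq (s := (univ : Finset (Fin n → I)))
      (f := fun g : Fin n → I => ((pl i j g).card.choose ((pl i j g).card / 2) : ℝ) /
        2 ^ (pl i j g).card)
    refine h3.trans ?_
    rw [card_univ, Fintype.card_fun, Fintype.card_fin]
    push_cast
    refine mul_le_mul_of_nonneg_left (sum_le_sum fun g _ => ?_) (by positivity)
    rw [div_pow, div_le_div_iff₀ (by positivity) (by positivity), one_mul, ← pow_mul,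
      mul_comm (pl i j g).card 2, pow_mul]
    have h4 := middle_bound (pl i j g).card
    have h5 : (((pl i j g).card : ℝ) + 1) *
        ((pl i j g).card.choose ((pl i j g).card / 2) : ℝ) ^ 2 ≤ 4 ^ (pl i j g).card := by
      exact_mod_cast h4
    norm_num
    linarith
  have h6 : ((univ.filter A).card : ℝ) ^ 2 ≤
      (Fintype.card I : ℝ) ^ n * ((Fintype.card I : ℝ) ^ (n + 1) / (2 * (n + 1))) := by
    refine (pow_le_pow_left₀ (by positivity) key 2).trans (h2.trans ?_)
    exact mul_le_mul_of_nonneg_left (sum_inv hij n) (by positivity)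
  rw [mul_div_assoc', le_div_iff₀ (by positivity)] at h6
  calc 2 * ((n : ℝ) + 1) * ((univ.filter A).card : ℝ) ^ 2
      = ((univ.filter A).card : ℝ) ^ 2 * (2 * (n + 1)) := by ring
    _ ≤ _ := h6
    _ = _ := by ring

/-- The condition `∑ a ∈ {0, 1}`. -/
theorem det_reset (a : I → ℤ) {i j : I} (hij : a i = a j + 2) (g : Fin n → I)
    (R R' : Finset (Fin n)) (h : ∑ k, a (reset i j R g k) = 0 ∨ ∑ k, a (reset i j R g k) = 1)
    (h' : ∑ k, a (reset i j R' g k) = 0 ∨ ∑ k, a (reset i j R' g k) = 1) :
    (pl i j g ∩ R).card = (pl i j g ∩ R').card := by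
  rw [sum_reset] at h h'
  rw [hij] at h h'
  have h1 : a j + 2 - a j = 2 := by ring
  rw [h1] at h h'
  omega

end Pool.Agent.N536.FS
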