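import Mathlib

/-!
# Cohomology theories with Frobenius operators on classes of proper schemes
-/

set_option autoImplicit false

open Module AlgebraicGeometry CategoryTheory CategoryTheory.Limits TensorProduct

namespace Pool.Agent.N536.FS

universe u v w

/-- A proper scheme over `k` (a complete variety, which need be neither smooth nor irreducible). -/
structure PVar (k : Type u) [Field k] where
  /-- the scheme -/
  X : Scheme.{u}
  /-- the structure morphism -/
  str : X ⟶ Spec (.of k)
  proper : IsProper str

attribute [instance] PVar.proper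

/-- The product `X × Y`. -/
noncomputable def PVar.prod {k : Type u} [Field k] (X Y : PVar.{u} k) : PVar.{u} k where
  X := pullback X.str Y.str
  str := pullback.fst X.str Y.str ≫ X.str
  proper := inferInstance

/-- The powers `X^(n + 1)`. -/
noncomputable def PVar.pow {k : Type u} [Field k] (X : PVar.{u} k) : ℕ → PVar.{u} k
  | 0 => X
  | n + 1 => X.prod (X.pow n)

/-- The data given by the cohomology of a proper scheme over a finite field: the space
`V = ⨁ H^m`, its parts `gr m = H^m` and the Frobenius operator `F`. -/
structure FCoh (Ω : Type w) [Field Ω] where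
  /-- the cohomology -/
  V : Type v
  [addCommGroup : AddCommGroup V]
  [module : Module Ω V]
  /-- the cohomology in degree `m` -/
  gr : ℕ → Submodule Ω V
  /-- the Frobenius operator -/
  F : Module.End Ω V

attribute [instance] FCoh.addCommGroup FCoh.module

namespace FCoh

variable {Ω : Type w} [Field Ω] (R : FCoh.{v, w} Ω)

/-- The known properties: the cohomology is of finite dimension and the sum of its parts `H^m`, the
Frobenius operator is invertible and respects the degrees. -/
structure IsFCoh : Prop where
  finite : Module.Finite Ω R.V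
  isInternal : DirectSum.IsInternal R.gr
  F_gr : ∀ m, ∀ x ∈ R.gr m, R.F x ∈ R.gr m
  F_inj : Function.Injective R.F

/-- Frobenius acts on `H^m` by a diagonalisable map: `H^m` is the sum of the eigenspaces. -/
def Semisimple (m : ℕ) : Prop := ⨆ α : Ω, R.gr m ⊓ R.F.eigenspace α = R.gr m

/-- The number `b` of the Jordan blocks with their multiplicities: the dimension of the
cohomology. -/
noncomputable def betti : ℕ := finrank Ω R.V

/-- The number of the Jordan blocks of Frobenius on the cohomology: the dimension of the sum of the
eigenspaces. -/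
noncomputable def blocks : ℕ := finrank Ω (⨆ α : Ω, R.F.eigenspace α : Submodule Ω R.V)

/-- The sum of the dimensions of the kernels of the `(F - α) ^ k`. -/
noncomputable def kerDim (k : ℕ) : ℕ :=
  finrank Ω (⨆ α : Ω, LinearMap.ker ((R.F - α • (1 : Module.End Ω R.V)) ^ k) :
    Submodule Ω R.V)

/-- The moment `2 ∑ k (b - d_k)`, where `d_k` is the sum of the dimensions of the kernels of the
`(F - α) ^ k`. -/
noncomputable def moment : ℤ := ∑ᶠ k : ℕ, 2 * (k : ℤ) * (R.betti - R.kerDim k)

end FCoh

/-- The Künneth formula: an isomorphism of the tensor product of `R` and `R'` with `R''` which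
respects the degrees and the Frobenius operators. -/
structure IsFKunneth {Ω : Type w} [Field Ω] (R R' R'' : FCoh.{v, w} Ω)
    (κ : R.V ⊗[Ω] R'.V ≃ₗ[Ω] R''.V) : Prop where
  degree : ∀ m n x y, x ∈ R.gr m → y ∈ R'.gr n → κ (x ⊗ₜ y) ∈ R''.gr (m + n)
  frob : ∀ x y, R''.F (κ (x ⊗ₜ y)) = κ (R.F x ⊗ₜ R'.F y)

/-- The cohomology `H` of the proper schemes over `k` has the known properties on the class `P`,
which is closed under products. -/
structure IsFTheory {k : Type u} [Field k] {Ω : Type w} [Field Ω] (P : PVar.{u} k → Prop)
    (H : PVar.{u} k → FCoh.{v, w} Ω) : Prop where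
  prod : ∀ X Y, P X → P Y → P (X.prod Y)
  coh : ∀ X, P X → (H X).IsFCoh
  kunneth : ∀ X Y, P X → P Y → ∃ κ, IsFKunneth (H X) (H Y) (H (X.prod Y)) κ

end Pool.Agent.N536.FS
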