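import Pool.Agent.N536.FS.Zero

/-!
# Zero-sum families in the presence of a duality
-/

set_option autoImplicit false
set_option linter.unusedSectionVars false

open Finset Filter Topology

namespace Pool.Agent.N536.FS

open Pool.Agent.N536.MW

section

variable {I : Type} [Fintype I] [DecidableEq I]

/-- The number of the pairs of families with equal counting vectors. -/
theorem card_pairs_le (m : ℕ) : ((Fintype.card I) ^ m) ^ 2 ≤ (m + 1) ^ Fintype.card I *
    (univ.filter fun x : (Fin m → I) × (Fin m → I) => cnt univ x.1 = cnt univ x.2).card := by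
  let f : (Fin m → I) → (I → Fin (m + 1)) := fun g i => ⟨cnt univ g i, by
    have h1 : cnt univ g i ≤ m := by
      refine (card_filter_le _ _).trans (le_of_eq ?_)
      rw [card_univ, Fintype.card_fin]
    omega⟩
  have hf : ∀ g g', f g = f g' ↔ cnt univ g = cnt univ g' := by
    intro g g'
    constructor
    · intro h
      funext i
      exact congrArg Fin.val (congrFun h i)
    · intro h
      funext i
      apply Fin.ext
      exact congrFun h i
  have h1 : ∑ c : I → Fin (m + 1), (univ.filter fun g => f g = c).card = Fintype.card I ^ m := by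
    rw [← card_eq_sum_card_fiberwise (fun g _ => mem_coe.2 (mem_univ _)), card_univ,
      Fintype.card_fun, Fintype.card_fin]
  have h2 : ∑ c : I → Fin (m + 1), (univ.filter fun g => f g = c).card ^ 2 =
      (univ.filter fun x : (Fin m → I) × (Fin m → I) => cnt univ x.1 = cnt univ x.2).card := by
    rw [card_eq_sum_card_fiberwise (f := fun x : (Fin m → I) × (Fin m → I) => f x.1) (t := univ)
      (fun x _ => mem_coe.2 (mem_univ _))]
    refine sum_congr rfl fun c _ => ?_
    rw [sq, ← card_product]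
    congr 1
    ext ⟨g, g'⟩
    simp only [mem_product, mem_filter, mem_univ, true_and]
    rw [← hf]
    constructor
    · rintro ⟨h3, h4⟩
      exact ⟨h3.trans h4.symm, h3⟩
    · rintro ⟨h3, h4⟩
      exact ⟨h4, h3.symm.trans h4⟩
  have h3 := sq_sum_le_card_mul_sum_sq (s := (univ : Finset (I → Fin (m + 1))))
    (f := fun c => (univ.filter fun g => f g = c).card)
  rw [h1, h2, card_univ, Fintype.card_fun, Fintype.card_fin] at h3
  exact h3

variable {Γ : Type*} [AddCommGroup Γ] [DecidableEq Γ] (w : I → Γ)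

/-- The number of the zero-sum families of even length is large if there is a duality. -/
theorem lower (σ : I → I) (hσ : Function.Injective σ) (hw : ∀ i, w (σ i) = - w i) (m : ℕ) :
    (Fintype.card I) ^ (m + m) ≤ (m + 1) ^ Fintype.card I *
      (univ.filter fun g : Fin (m + m) → I => ∑ k, w (g k) = 0).card := by
  have h1 := card_pairs_le (I := I) m
  rw [← pow_mul, show m * 2 = m + m by ring] at h1
  refine h1.trans (Nat.mul_le_mul_left _ ?_)
  refine card_le_card_of_injOn (fun x => Fin.append x.1 (σ ∘ x.2)) ?_ ?_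
  · intro x hx
    rw [mem_coe, mem_filter] at hx ⊢
    refine ⟨mem_univ _, ?_⟩
    rw [Fin.sum_univ_add]
    have h2 : ∀ k : Fin m, w (Fin.append x.1 (σ ∘ x.2) (Fin.castAdd m k)) = w (x.1 k) := fun k => by
      rw [Fin.append_left]
    have h3 : ∀ k : Fin m, w (Fin.append x.1 (σ ∘ x.2) (Fin.natAdd m k)) = - w (x.2 k) :=
      fun k => by
      rw [Fin.append_right, Function.comp_apply, hw]
    rw [sum_congr rfl fun k _ => h2 k, sum_congr rfl fun k _ => h3 k, sum_neg_distrib,
      sum_w w univ x.1, sum_w w univ x.2, hx.2, add_neg_cancel]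
  · intro x _ y _ hxy
    simp only at hxy
    have h2 : x.1 = y.1 := by
      funext k
      have := congrFun hxy (Fin.castAdd m k)
      rwa [Fin.append_left, Fin.append_left] at this
    have h3 : x.2 = y.2 := by
      funext k
      have := congrFun hxy (Fin.natAdd m k)
      rw [Fin.append_right, Fin.append_right] at this
      exact hσ this
    exact Prod.ext h2 h3

/-- Families with few places of `i`, `j` are exponentially rare. -/
theorem few {i j : I} (hij : i ≠ j) (n M : ℕ) :
    ((univ.filter fun g : Fin n → I => (pl i j g).card ≤ M).card : ℝ) ≤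
      2 ^ M * ((Fintype.card I : ℝ) - 1) ^ n := by
  have h1 : ∑ g : Fin n → I, (1 / 2 : ℝ) ^ (pl i j g).card = ((Fintype.card I : ℝ) - 1) ^ n := by
    have h2 : ∑ x : I, (if x = i ∨ x = j then (1 / 2 : ℝ) else 1) = (Fintype.card I : ℝ) - 1 := by
      have h3 : ∀ x : I, (if x = i ∨ x = j then (1 / 2 : ℝ) else 1) =
          1 - (if x = i ∨ x = j then (1 / 2 : ℝ) else 0) := by
        intro x
        split_ifs <;> norm_num
      rw [sum_congr rfl fun x _ => h3 x, sum_sub_distrib, sum_const, card_univ, nsmul_eq_mul,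
        mul_one, ← sum_filter, sum_const]
      have h7 : (univ.filter fun x : I => x = i ∨ x = j) = {i, j} := by
        ext x
        simp
      rw [h7, card_pair hij]
      norm_num
    rw [← h2, Fintype.sum_pow]
    refine sum_congr rfl fun g _ => ?_
    rw [prod_ite, prod_const, prod_const_one, mul_one]
    rfl
  rw [← h1, mul_sum]
  have h2 : ((univ.filter fun g : Fin n → I => (pl i j g).card ≤ M).card : ℝ) =
      ∑ g ∈ univ.filter fun g : Fin n → I => (pl i j g).card ≤ M, (1 : ℝ) := by
    rw [sum_const, nsmul_eq_mul, mul_one]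
  rw [h2]
  refine (sum_le_sum fun g hg => ?_).trans (sum_le_sum_of_subset_of_nonneg (subset_univ _)
    fun g _ _ => by positivity)
  have h3 := (mem_filter.1 hg).2
  have h4 : (2 : ℝ) ^ M * (1 / 2) ^ (pl i j g).card = 2 ^ (M - (pl i j g).card) := by
    rw [one_div, inv_pow, ← div_eq_mul_inv, div_eq_iff (by positivity), ← pow_add,
      Nat.sub_add_cancel h3]
  rw [h4]
  exact one_le_pow₀ (by norm_num)

theorem aux_field (t r G : ℝ) (ht : t ≠ 0) : t * (1 / (t * t) * (r * G)) = r / t * G := by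
  field_simp

/-- **Anticoncentration on the zero-sum families, with a rate.** -/
theorem rate_zero (σ : I → I) (hσ : Function.Injective σ) (hw : ∀ i, w (σ i) = - w i)
    (a : I → ℤ) {i j : I} (hwij : w i = w j) (ha : a i = a j + 2) :
    ∃ C : ℝ, 0 < C ∧ ∀ m : ℕ,
      0 < (univ.filter fun g : Fin (m + m) → I => ∑ k, w (g k) = 0).card ∧
      √(m : ℝ) * ((univ.filter fun g : Fin (m + m) → I => ∑ k, w (g k) = 0 ∧
        (∑ k, a (g k) = 0 ∨ ∑ k, a (g k) = 1)).card : ℝ) ≤
      C * (univ.filter fun g : Fin (m + m) → I => ∑ k, w (g k) = 0).card := by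
  have hne : i ≠ j := fun h => by
    rw [h] at ha
    omega
  set b := Fintype.card I with hb
  have hb2 : 2 ≤ b := Fintype.one_lt_card_iff.2 ⟨i, j, hne⟩
  have hbR : (2 : ℝ) ≤ b := by exact_mod_cast hb2
  set ρ : ℝ := ((b : ℝ) - 1) / b with hρ
  have hρ0 : 0 ≤ ρ := div_nonneg (by linarith) (by linarith)
  have hρ1 : ρ < 1 := by
    rw [hρ, div_lt_one (by linarith)]
    linarith
  obtain ⟨K, hK⟩ := exists_pow_lt_of_lt_one (by norm_num : (0 : ℝ) < 1 / 4)
    (pow_lt_one₀ hρ0 hρ1 two_ne_zero)
  have hK0 : 0 < K := by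
    rcases Nat.eq_zero_or_pos K with h | h
    · rw [h, pow_zero] at hK
      norm_num at hK
    · exact h
  obtain ⟨D, hD⟩ : ∃ D : ℝ, ∀ M : ℕ, ((M : ℝ) + 1) ^ (b + 1) / 2 ^ M ≤ D := by
    have h1 := (tendsto_pow_const_div_const_pow_of_one_lt (b + 1) (by norm_num : (1 : ℝ) < 2))
    have h2 := (tendsto_add_atTop_iff_nat 1).2 h1
    obtain ⟨D, hD⟩ := h2.bddAbove_range
    refine ⟨2 * D, fun M => ?_⟩
    have h3 := hD ⟨M, rfl⟩
    simp only at h3
    push_cast at h3
    rw [pow_succ (2 : ℝ) M, div_mul_eq_div_div, div_le_iff₀ (by norm_num)] at h3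
    linarith
  have hD0 : 0 ≤ D := by
    have := hD 0
    simp at this
    linarith
  refine ⟨√K + K ^ (b + 1) * D + 1, by positivity, fun m => ?_⟩
  set G := univ.filter fun g : Fin (m + m) → I => ∑ k, w (g k) = 0 with hG
  have hlow := lower w σ hσ hw m
  rw [← hb, ← hG] at hlow
  have hGpos : 0 < G.card := by
    rw [Nat.pos_iff_ne_zero]
    intro h
    rw [h, mul_zero] at hlow
    have : 0 < b ^ (m + m) := by positivity
    omega
  refine ⟨hGpos, ?_⟩
  have hGposR : (0 : ℝ) < G.card := by exact_mod_cast hGpos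
  set M := m / K with hM
  have hMK : m < K * (M + 1) := by
    rw [hM]
    have := Nat.lt_mul_div_succ m hK0
    exact this
  have hKM : K * M ≤ m := Nat.mul_div_le m K
  -- the sum over the families
  have hA := count_sum hne (fun g : Fin (m + m) → I => ∑ k, w (g k) = 0 ∧
    (∑ k, a (g k) = 0 ∨ ∑ k, a (g k) = 1)) (fun g : Fin (m + m) → I => ∑ k, w (g k) = 0)
    (fun g R R' h h' => det_reset a ha g R R' h.2 h'.2) (fun g R h => by
      rw [← h]
      refine sum_congr rfl fun k _ => ?_
      unfold reset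
      split_ifs with h1 h2
      · rcases h1 with h1 | h1
        · rw [h1]
        · rw [h1, hwij]
      · rcases h1 with h1 | h1
        · rw [h1, hwij]
        · rw [h1]
      · rfl) (fun g h => h.1)
  set B := univ.filter fun g : Fin (m + m) → I => (pl i j g).card ≤ M with hB
  have hs : ∑ g ∈ G, ((pl i j g).card.choose ((pl i j g).card / 2) : ℝ) /
      2 ^ (pl i j g).card ≤ B.card + G.card * (1 / √((M : ℝ) + 1)) := by
    have h1 : ∀ g ∈ G, ((pl i j g).card.choose ((pl i j g).card / 2) : ℝ) /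
        2 ^ (pl i j g).card ≤ (if g ∈ B then 1 else 0) + 1 / √((M : ℝ) + 1) := by
      intro g _
      refine (middle_le _).trans ?_
      by_cases hgB : g ∈ B
      · rw [if_pos hgB]
        have h2 : 1 / √(((pl i j g).card : ℝ) + 1) ≤ 1 := by
          rw [div_le_one (Real.sqrt_pos.2 (by positivity)), Real.one_le_sqrt]
          have : (0 : ℝ) ≤ (pl i j g).card := by positivity
          linarith
        have h3 : 0 ≤ 1 / √((M : ℝ) + 1) := by positivity
        linarith
      · rw [if_neg hgB, zero_add]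
        have h4 : M ≤ (pl i j g).card := by
          by_contra hcon
          exact hgB (mem_filter.2 ⟨mem_univ _, by omega⟩)
        refine one_div_le_one_div_of_le (Real.sqrt_pos.2 (by positivity)) (Real.sqrt_le_sqrt ?_)
        have : (M : ℝ) ≤ (pl i j g).card := by exact_mod_cast h4
        linarith
    refine (sum_le_sum h1).trans ?_
    rw [sum_add_distrib, sum_const, nsmul_eq_mul]
    refine add_le_add ?_ le_rfl
    rw [sum_ite_mem, sum_const, nsmul_eq_mul, mul_one]
    exact_mod_cast card_le_card inter_subset_right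
  have hBb : (B.card : ℝ) ≤ 2 ^ M * ((b : ℝ) - 1) ^ (m + m) := few hne (m + m) M
  -- comparison with the number of the zero-sum families
  have hBG : (B.card : ℝ) ≤ ((m : ℝ) + 1) ^ b / 2 ^ M * G.card := by
    have h1 : ((b : ℝ) - 1) = ρ * b := by
      rw [hρ, div_mul_cancel₀ _ (by linarith)]
    have h2 : ρ ^ (m + m) ≤ 1 / 4 ^ M := by
      have h3 : ρ ^ (m + m) = (ρ ^ 2) ^ m := by
        rw [← pow_mul]
        congr 1
        ring
      have h4 : (ρ ^ 2) ^ m ≤ (ρ ^ 2) ^ (K * M) :=
        pow_le_pow_of_le_one (by positivity) (pow_le_one₀ hρ0 hρ1.le) hKM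
      have h5 : ((ρ ^ 2) ^ K) ^ M ≤ (1 / 4) ^ M := pow_le_pow_left₀ (by positivity) hK.le M
      rw [h3]
      refine h4.trans ?_
      rw [pow_mul]
      refine h5.trans (le_of_eq ?_)
      rw [one_div_pow]
    have h6 : (b : ℝ) ^ (m + m) ≤ ((m : ℝ) + 1) ^ b * G.card := by exact_mod_cast hlow
    calc (B.card : ℝ) ≤ 2 ^ M * ((b : ℝ) - 1) ^ (m + m) := hBb
      _ = 2 ^ M * (ρ ^ (m + m) * (b : ℝ) ^ (m + m)) := by rw [h1, mul_pow]
      _ ≤ 2 ^ M * (1 / 4 ^ M * (((m : ℝ) + 1) ^ b * G.card)) := by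
          refine mul_le_mul_of_nonneg_left ?_ (by positivity)
          exact mul_le_mul h2 h6 (by positivity) (by positivity)
      _ = ((m : ℝ) + 1) ^ b / 2 ^ M * G.card := by
          rw [show (4 : ℝ) ^ M = 2 ^ M * 2 ^ M by rw [← mul_pow]; norm_num]
          exact aux_field _ _ _ (by positivity)
  have hmK : (m : ℝ) + 1 ≤ K * ((M : ℝ) + 1) := by exact_mod_cast hMK
  have hsq : √(m : ℝ) * (1 / √((M : ℝ) + 1)) ≤ √K := by
    rw [mul_one_div, div_le_iff₀ (Real.sqrt_pos.2 (by positivity)), ← Real.sqrt_mul (by positivity)]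
    exact Real.sqrt_le_sqrt (by linarith)
  have hsq2 : √(m : ℝ) * (((m : ℝ) + 1) ^ b / 2 ^ M) ≤ K ^ (b + 1) * D := by
    have h1 : √(m : ℝ) ≤ (m : ℝ) + 1 := by
      rw [Real.sqrt_le_left (by positivity)]
      nlinarith [(Nat.cast_nonneg m : (0 : ℝ) ≤ m)]
    calc √(m : ℝ) * (((m : ℝ) + 1) ^ b / 2 ^ M) ≤ ((m : ℝ) + 1) * (((m : ℝ) + 1) ^ b / 2 ^ M) :=
          mul_le_mul_of_nonneg_right h1 (by positivity)
      _ = ((m : ℝ) + 1) ^ (b + 1) / 2 ^ M := by rw [pow_succ]; ring
      _ ≤ (K * ((M : ℝ) + 1)) ^ (b + 1) / 2 ^ M := by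
          refine div_le_div_of_nonneg_right ?_ (by positivity)
          exact pow_le_pow_left₀ (by positivity) hmK _
      _ = K ^ (b + 1) * (((M : ℝ) + 1) ^ (b + 1) / 2 ^ M) := by rw [mul_pow]; ring
      _ ≤ K ^ (b + 1) * D := mul_le_mul_of_nonneg_left (hD M) (by positivity)
  have hfin := hA.trans hs
  calc √(m : ℝ) * ((univ.filter fun g : Fin (m + m) → I => ∑ k, w (g k) = 0 ∧
        (∑ k, a (g k) = 0 ∨ ∑ k, a (g k) = 1)).card : ℝ)
      ≤ √(m : ℝ) * (B.card + G.card * (1 / √((M : ℝ) + 1))) :=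
        mul_le_mul_of_nonneg_left hfin (Real.sqrt_nonneg _)
    _ ≤ √(m : ℝ) * (((m : ℝ) + 1) ^ b / 2 ^ M * G.card + G.card * (1 / √((M : ℝ) + 1))) := by
        refine mul_le_mul_of_nonneg_left ?_ (Real.sqrt_nonneg _)
        exact add_le_add hBG le_rfl
    _ = (√(m : ℝ) * (((m : ℝ) + 1) ^ b / 2 ^ M) + √(m : ℝ) * (1 / √((M : ℝ) + 1))) * G.card := by
        ring
    _ ≤ (K ^ (b + 1) * D + √K) * G.card :=
        mul_le_mul_of_nonneg_right (add_le_add hsq2 hsq) hGposR.le
    _ ≤ (√K + K ^ (b + 1) * D + 1) * G.card := by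
        refine mul_le_mul_of_nonneg_right ?_ hGposR.le
        linarith

end

end Pool.Agent.N536.FS
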