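import Pool.Agent.N536.FS.Tate
import Pool.Agent.N536.FS.Lower

/-!
# Tate classes on the even powers of a smooth projective variety
-/

set_option autoImplicit false
set_option linter.unusedSectionVars false

open Module TensorProduct Filter Topology

namespace Pool.Agent.N536.FS

universe u v w

open Pool.Agent.Y163.MW

/-- Poincaré duality on the cohomology of a variety of dimension `d`: `B` is nondegenerate, `H^m` and
`H^m'` are orthogonal unless `m + m' = 2 d`, and `B(F x, F y) = q ^ d B(x, y)`. -/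
structure IsPD {Ω : Type w} [Field Ω] (R : FCoh.{v, w} Ω) (q d : ℕ)
    (B : R.V →ₗ[Ω] R.V →ₗ[Ω] Ω) : Prop where
  nondeg : ∀ x, (∀ y, B x y = 0) → x = 0
  orth : ∀ m m' x y, x ∈ R.gr m → y ∈ R.gr m' → m + m' ≠ 2 * d → B x y = 0
  frob : ∀ x y, B (R.F x) (R.F y) = (q : Ω) ^ d * B x y

section

variable {Ω : Type w} [Field Ω] [CharZero Ω]

/-- The classes of the types modulo Tate twists. -/
theorem exists_cls {q : ℕ} (hq : q ≠ 0) {I : Type} (τ : I → ℕ × Ω) (hne : ∀ p, (τ p).2 ≠ 0) :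
    ∃ (Γ : Type w) (_ : AddCommGroup Γ) (w : I → Γ), ∀ (n : ℕ) (g : Fin n → I),
      (∑ k, w (g k) = 0 ↔ IsTate q (∑ k, (τ (g k)).1, ∏ k, (τ (g k)).2)) := by
  have hqΩ : (q : Ω) ≠ 0 := Nat.cast_ne_zero.2 hq
  let A : Type w := Additive Ωˣ × ℤ
  let tw : A := (Additive.ofMul (Units.mk0 (q : Ω) hqΩ), 2)
  let w0 : I → A := fun p => (Additive.ofMul (Units.mk0 (τ p).2 (hne p)), ((τ p).1 : ℤ))
  let w : I → A ⧸ AddSubgroup.zmultiples tw := fun p => QuotientAddGroup.mk (w0 p)
  refine ⟨A ⧸ AddSubgroup.zmultiples tw, inferInstance, w, ?_⟩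
  intro n g
  have h1 : ∑ k, w (g k) = QuotientAddGroup.mk (s := AddSubgroup.zmultiples tw)
      (∑ k, w0 (g k)) := mk_sum' _ _
  rw [h1, QuotientAddGroup.eq_zero_iff, AddSubgroup.mem_zmultiples_iff]
  have h2 : ∑ k, w0 (g k) = (Additive.ofMul (∏ k, Units.mk0 (τ (g k)).2 (hne (g k))),
      ∑ k, ((τ (g k)).1 : ℤ)) := by
    refine Prod.ext ?_ ?_
    · rw [Prod.fst_sum]
      rfl
    · rw [Prod.snd_sum]
  rw [h2]
  constructor
  · rintro ⟨z, hz⟩
    have h3 := congrArg Prod.fst hz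
    have h4 := congrArg Prod.snd hz
    have h5 : z * 2 = ∑ k, ((τ (g k)).1 : ℤ) := by
      have : z • (2 : ℤ) = ∑ k, ((τ (g k)).1 : ℤ) := h4
      rwa [smul_eq_mul] at this
    have h6 : 0 ≤ z := by
      have h7 : (0 : ℤ) ≤ ∑ k, ((τ (g k)).1 : ℤ) :=
        Finset.sum_nonneg fun k _ => Int.natCast_nonneg _
      omega
    obtain ⟨j, rfl⟩ := Int.eq_ofNat_of_zero_le h6
    refine ⟨j, Prod.ext ?_ ?_⟩
    · simp only
      have h8 : ((∑ k, (τ (g k)).1 : ℕ) : ℤ) = 2 * j := by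
        push_cast
        rw [← h5]
        push_cast
        ring
      exact_mod_cast h8
    · simp only
      have h8 : (Units.mk0 (q : Ω) hqΩ) ^ j = ∏ k, Units.mk0 (τ (g k)).2 (hne (g k)) := by
        have h9 : ((j : ℤ)) • (Additive.ofMul (Units.mk0 (q : Ω) hqΩ)) =
          Additive.ofMul (∏ k, Units.mk0 (τ (g k)).2 (hne (g k))) := h3
        rw [natCast_zsmul, ← ofMul_pow] at h9
        exact Additive.ofMul.injective h9
      have h10 := congrArg Units.val h8
      rw [Units.val_pow_eq_pow_val, Units.coe_prod] at h10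
      exact h10.symm
  · rintro ⟨j, hj⟩
    have h3 := congrArg Prod.fst hj
    have h4 := congrArg Prod.snd hj
    simp only at h3 h4
    refine ⟨j, Prod.ext ?_ ?_⟩
    · show ((j : ℤ)) • (Additive.ofMul (Units.mk0 (q : Ω) hqΩ)) =
          Additive.ofMul (∏ k, Units.mk0 (τ (g k)).2 (hne (g k)))
      rw [natCast_zsmul, ← ofMul_pow]
      congr 1
      apply Units.ext
      rw [Units.val_pow_eq_pow_val, Units.coe_prod]
      exact h4.symm
    · show (j : ℤ) • (2 : ℤ) = ∑ k, ((τ (g k)).1 : ℤ)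
      rw [smul_eq_mul]
      have : ((∑ k, (τ (g k)).1 : ℕ) : ℤ) = 2 * j := by
        rw [h3]
        push_cast
        ring
      push_cast at this
      rw [this]
      ring

/-- The dual type. -/
def dt (q d : ℕ) (c : ℕ × Ω) : ℕ × Ω := (2 * d - c.1, (q : Ω) ^ d / c.2)

variable {R : FCoh.{v, w} Ω} [IsAlgClosed Ω]

/-- Duality between the parts of the cohomology. -/
theorem dual_le (hR : R.IsFCoh) {q d : ℕ} {B : R.V →ₗ[Ω] R.V →ₗ[Ω] Ω} (hB : IsPD R q d B)
    {c : ℕ × Ω} (hc : c.2 ≠ 0) {x : R.V} (hx : x ∈ pc R c) (hx0 : x ≠ 0) :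
    c.1 ≤ 2 * d ∧ finrank Ω (pc R c) ≤ finrank Ω (pc R (dt q d c)) := by
  have := hR.finite
  have hall : ∀ z : R.V, (∀ c', ∀ y ∈ pc R c', B z y = 0) → z = 0 := by
    intro z h
    apply hB.nondeg
    intro y
    have h1 : (⊤ : Submodule Ω R.V) ≤ LinearMap.ker (B z) := by
      rw [← iSup_pc hR]
      exact iSup_le fun c' y hy => LinearMap.mem_ker.2 (h c' y hy)
    exact LinearMap.mem_ker.1 (h1 Submodule.mem_top)
  have hle : c.1 ≤ 2 * d := by
    by_contra hcon
    apply hx0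
    apply hall
    intro c' y hy
    exact hB.orth c.1 c'.1 x y (Submodule.mem_inf.1 hx).1 (Submodule.mem_inf.1 hy).1 (by omega)
  refine ⟨hle, ?_⟩
  let φ : pc R c →ₗ[Ω] Module.Dual Ω (pc R (dt q d c)) :=
    { toFun := fun x => (B x).comp (pc R (dt q d c)).subtype
      map_add' := fun x y => by ext z; simp
      map_smul' := fun a x => by ext z; simp }
  have hφ : Function.Injective φ := by
    rw [← LinearMap.ker_eq_bot, LinearMap.ker_eq_bot']
    intro x hx
    apply Subtype.ext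
    apply hall
    intro c' y hy
    obtain ⟨hx1, hx2⟩ := Submodule.mem_inf.1 x.2
    obtain ⟨hy1, hy2⟩ := Submodule.mem_inf.1 hy
    by_cases h1 : c.1 + c'.1 = 2 * d
    · by_cases h2 : c.2 * c'.2 = (q : Ω) ^ d
      · have h3 : c' = dt q d c := by
          refine Prod.ext ?_ ?_
          · show c'.1 = 2 * d - c.1
            omega
          · show c'.2 = (q : Ω) ^ d / c.2
            rw [← h2, mul_div_cancel_left₀ _ hc]
        rw [h3] at hy
        exact DFunLike.congr_fun hx ⟨y, hy⟩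
      · exact gen_orth (F := R.F) (S := ⊤) (fun _ _ => Submodule.mem_top)
          (fun x y _ _ => hB.frob x y) h2 Submodule.mem_top Submodule.mem_top hx2 hy2
    · exact hB.orth c.1 c'.1 x y hx1 hy1 h1
  have h := LinearMap.finrank_le_finrank_of_injective hφ
  rwa [Subspace.dual_finrank_eq] at h

end

section

variable {𝒱 : Type u} {prod : 𝒱 → 𝒱 → 𝒱} {Ω : Type w} [Field Ω] [CharZero Ω] [IsAlgClosed Ω]
  {P : 𝒱 → Prop} {H : 𝒱 → FCoh.{v, w} Ω}

/-- The betti number of a power. -/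
theorem betti_powK (hH : IsKTheory prod P H) {X : 𝒱} (hX : P X) (n : ℕ) :
    (H (powK prod X n)).betti = (H X).betti ^ (n + 1) := by
  obtain ⟨S, N, T, ty, hJ, hT, hA⟩ := exists_jtyp (hH.coh X hX)
  have hA' := jtyp_pow hH hX hA n
  obtain ⟨_, _, _, _, b, _⟩ := hA
  obtain ⟨_, _, _, _, b', _⟩ := hA'
  unfold FCoh.betti
  rw [finrank_eq_card_basis b, finrank_eq_card_basis b', Fintype.card_fun, Fintype.card_fin]

/-- If Frobenius is not semisimple on the cohomology of `X`, then the share of the Tate classes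
among the generalised Tate classes of `X ^ (2 n)` is `O(1 / √n)`. -/
theorem dual_rate (hH : IsKTheory prod P H) {X : 𝒱} (hX : P X) {q : ℕ} (hq : q ≠ 0) {d : ℕ}
    {B : (H X).V →ₗ[Ω] (H X).V →ₗ[Ω] Ω} (hB : IsPD (H X) q d B)
    (hns : ¬ ∀ m, (H X).Semisimple m) :
    2 ≤ (H X).betti ∧ ∃ C : ℝ, 0 < C ∧ ∀ n : ℕ, 0 < (H (powK prod X (2 * n + 1))).genTateDim q ∧
      √((n : ℝ) + 1) * (H (powK prod X (2 * n + 1))).tateDim q ≤
        C * (H (powK prod X (2 * n + 1))).genTateDim q := by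
  classical
  have hR := hH.coh X hX
  have := hR.finite
  obtain ⟨S, N, T, ty, hJ, hT, hA⟩ := exists_jtyp hR
  have hN : N ≠ 0 := fun h => hns ((semisimple_iff_zero hR hJ).2 h)
  obtain ⟨s, hs⟩ := exists_len T hN
  have hpc : ∀ p : T.P, T.b p ∈ pc (H X) (ty p.1) := fun p => hT p.1 p.2
  -- the eigenvalues are not zero
  have hne : ∀ p : T.P, (ty p.1).2 ≠ 0 := by
    intro p
    have h1 := hJ.gen_le _ (Submodule.mem_inf.1 (hpc p)).2
    exact hJ.ne_zero (Module.End.mem_eigenspace_iff.1 h1) (T.b.ne_zero _)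
  obtain ⟨Γ, _, w, hw⟩ := exists_cls hq (fun p : T.P => ty p.1) hne
  -- the duality of the types
  have hfin : ∀ c, finrank Ω (pc (H X) c) = Nat.card {p : T.P // ty p.1 = c} := fun c =>
    finrank_gr (indep_pc hR) T.b (fun p => ty p.1) hpc c
  have hemb : ∀ c, ∃ f : {p : T.P // ty p.1 = c} → {p : T.P // ty p.1 = dt q d c},
      Function.Injective f := by
    intro c
    by_cases hne' : Nonempty {p : T.P // ty p.1 = c}
    · obtain ⟨⟨p, hp⟩⟩ := hne'
      have h1 := (dual_le hR hB (hne p) (hpc p) (T.b.ne_zero _)).2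
      rw [hp, hfin, hfin, Nat.card_eq_fintype_card, Nat.card_eq_fintype_card] at h1
      obtain ⟨f⟩ := Function.Embedding.nonempty_of_card_le h1
      exact ⟨f, f.injective⟩
    · exact ⟨fun x => absurd ⟨x⟩ hne', fun x => absurd ⟨x⟩ hne'⟩
  choose f hf using hemb
  let σ : T.P → T.P := fun p => (f (ty p.1) ⟨p, rfl⟩).1
  have hσt : ∀ p, ty (σ p).1 = dt q d (ty p.1) := fun p => (f (ty p.1) ⟨p, rfl⟩).2
  have hσc : ∀ c (p : T.P) (hp : ty p.1 = c), σ p = (f c ⟨p, hp⟩).1 := by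
    rintro _ p rfl
    rfl
  have hσ : Function.Injective σ := by
    intro p p' hpp
    have h1 : dt q d (ty p.1) = dt q d (ty p'.1) := by rw [← hσt, ← hσt, hpp]
    have h2 := (dual_le hR hB (hne p) (hpc p) (T.b.ne_zero _)).1
    have h3 := (dual_le hR hB (hne p') (hpc p') (T.b.ne_zero _)).1
    have h4 : ty p.1 = ty p'.1 := by
      refine Prod.ext ?_ ?_
      · have h5 : 2 * d - (ty p.1).1 = 2 * d - (ty p'.1).1 := congrArg Prod.fst h1
        omega
      · have h5 : (q : Ω) ^ d / (ty p.1).2 = (q : Ω) ^ d / (ty p'.1).2 := congrArg Prod.snd h1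
        have hq' : (q : Ω) ^ d ≠ 0 := pow_ne_zero _ (Nat.cast_ne_zero.2 hq)
        rw [div_eq_div_iff (hne p) (hne p')] at h5
        exact (mul_left_cancel₀ hq' h5).symm
    rw [hσc _ p h4, hσc _ p' rfl] at hpp
    exact congrArg Subtype.val (hf _ (Subtype.ext hpp))
  -- the classes of dual types are opposite
  have hdual : ∀ p p' : T.P, ty p'.1 = dt q d (ty p.1) → w p' = - w p := by
    intro p p' hpp
    have h1 := (hw 2 ![p, p']).2 (by
      refine ⟨d, Prod.ext ?_ ?_⟩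
      · simp only [Fin.sum_univ_two, Matrix.cons_val_zero, Matrix.cons_val_one]
        rw [hpp]
        have h2 := (dual_le hR hB (hne p) (hpc p) (T.b.ne_zero _)).1
        show (ty p.1).1 + (2 * d - (ty p.1).1) = 2 * d
        omega
      · simp only [Fin.prod_univ_two, Matrix.cons_val_zero, Matrix.cons_val_one]
        rw [hpp]
        show (ty p.1).2 * ((q : Ω) ^ d / (ty p.1).2) = (q : Ω) ^ d
        rw [mul_div_cancel₀ _ (hne p)])
    rw [Fin.sum_univ_two] at h1
    simp only [Matrix.cons_val_zero, Matrix.cons_val_one] at h1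
    exact eq_neg_of_add_eq_zero_right h1
  have hwσ : ∀ p, w (σ p) = - w p := fun p => hdual p (σ p) (hσt p)
  let p : T.P := ⟨s, ⟨0, by omega⟩⟩
  let p' : T.P := ⟨s, ⟨1, by omega⟩⟩
  have hct : T.ct p = T.ct p' + 2 := by
    unfold Strings.ct
    simp [p, p']
  have hwp : w p = w p' := by
    have h1 : w (σ p) = - w p' := hdual p' (σ p) (hσt p)
    rw [hwσ] at h1
    exact neg_injective h1
  obtain ⟨C, hC, hrate⟩ := rate_zero w σ hσ hwσ T.ct hwp hct
  have hb2 : 2 ≤ (H X).betti := by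
    unfold FCoh.betti
    rw [finrank_eq_card_basis T.b]
    refine Fintype.one_lt_card_iff.2 ⟨p, p', fun h => ?_⟩
    rw [h] at hct
    omega
  refine ⟨hb2, C, hC, fun n => ?_⟩
  have hn : 2 * n + 1 + 1 = (n + 1) + (n + 1) := by ring
  obtain ⟨h1, h2⟩ := (jtyp_pow hH hX hA (2 * n + 1)).gen_eq q (hH.coh _ (powK_mem hH hX _))
  obtain ⟨h3, h4⟩ := hrate (n + 1)
  have e1 : (H (powK prod X (2 * n + 1))).genTateDim q =
      (Finset.univ.filter fun g : Fin ((n + 1) + (n + 1)) → T.P => ∑ k, w (g k) = 0).card := by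
    rw [h1, ← hn, Nat.card_eq_fintype_card, Fintype.card_subtype]
    congr 1
    ext g
    simp only [Finset.mem_filter, Finset.mem_univ, true_and]
    exact (hw _ g).symm
  have e2 : (H (powK prod X (2 * n + 1))).tateDim q ≤
      (Finset.univ.filter fun g : Fin ((n + 1) + (n + 1)) → T.P => ∑ k, w (g k) = 0 ∧
        (∑ k, T.ct (g k) = 0 ∨ ∑ k, T.ct (g k) = 1)).card := by
    refine h2.trans (le_of_eq ?_)
    rw [← hn, Nat.card_eq_fintype_card, Fintype.card_subtype]
    congr 1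
    ext g
    simp only [Finset.mem_filter, Finset.mem_univ, true_and]
    rw [← hw _ g]
  rw [e1]
  refine ⟨h3, ?_⟩
  have h5 : √((n : ℝ) + 1) = √((n + 1 : ℕ) : ℝ) := by push_cast; rfl
  rw [h5]
  refine le_trans ?_ h4
  refine mul_le_mul_of_nonneg_left ?_ (Real.sqrt_nonneg _)
  exact_mod_cast e2

/-- The semisimple case. -/
theorem dual_one (hH : IsKTheory prod P H) {X : 𝒱} (hX : P X) (q : ℕ)
    (hss : ∀ m, (H X).Semisimple m) (n : ℕ) :
    (∀ m, (H (powK prod X n)).Semisimple m) ∧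
      (H (powK prod X n)).tateDim q = (H (powK prod X n)).genTateDim q := by
  have hR := hH.coh X hX
  have hRn := hH.coh _ (powK_mem hH hX n)
  have := hRn.finite
  obtain ⟨S, N, T, ty, hJ, hT, hA⟩ := exists_jtyp hR
  have hN : N = 0 := (semisimple_iff_zero hR hJ).1 hss
  have hct : ∀ p, T.ct p = 0 := by
    rintro ⟨s, i⟩
    have h1 : T.len s = 0 := by
      by_contra hcon
      have h2 := T.succ s ⟨0, by omega⟩
      exact T.b.ne_zero _ (h2.symm.trans (LinearMap.congr_fun hN _))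
    unfold Strings.ct
    have := i.2
    simp only
    omega
  obtain ⟨S', N', e, h, b, hJ', hs, hb⟩ := jtyp_pow hH hX hA n
  have hN' : N' = 0 := by
    apply b.ext
    intro g
    have h1 := (hb g).2.2
    have h2 : {j : Fin (n + 1) → T.P | ((∑ k, (ty (j k).1).1, ∏ k, (ty (j k).1).2) : ℕ × Ω) =
        (∑ k, (ty (g k).1).1, ∏ k, (ty (g k).1).2) ∧
        ∑ k, T.ct (j k) = ∑ k, T.ct (g k) - 2} = ∅ := by
      rw [Set.eq_empty_iff_forall_notMem]
      rintro j ⟨-, hj⟩
      rw [Finset.sum_eq_zero fun k _ => hct (j k), Finset.sum_eq_zero fun k _ => hct (g k)] at hj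
      omega
    rw [h2, Set.image_empty, Submodule.span_empty] at h1
    rw [LinearMap.zero_apply]
    exact (Submodule.mem_bot Ω).1 h1
  have hss' : ∀ m, (H (powK prod X n)).Semisimple m := (semisimple_iff_zero hRn hJ').2 hN'
  refine ⟨hss', ?_⟩
  rw [← (tate_iff q hRn).2]
  intro j
  apply le_antisymm
  · rintro x ⟨hx1, hx2⟩
    refine ⟨hx1, ?_⟩
    have h4 := hJ'.gen_le _ hx2
    have h5 := (hJ'.mem_iff (Module.End.mem_eigenspace_iff.1 h4) 1).2 (by
      rw [pow_one, hN']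
      exact LinearMap.mem_ker.2 rfl)
    rw [Nat.cast_one] at h5
    exact h5
  · exact inf_le_inf_left _ Module.End.eigenspace_le_maxGenEigenspace

/-- The zero–one law for smooth projective varieties. -/
theorem dual_law (hH : IsKTheory prod P H) {q : ℕ} (hq : q ≠ 0)
    (hPD : ∀ X, P X → ∃ (d : ℕ) (B : (H X).V →ₗ[Ω] (H X).V →ₗ[Ω] Ω), IsPD (H X) q d B) :
    (∀ X, P X →
      ((∀ m, (H X).Semisimple m) → ∀ n,
        (H (powK prod X n)).tateDim q = (H (powK prod X n)).genTateDim q) ∧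
      (¬ (∀ m, (H X).Semisimple m) → ∃ C : ℝ, ∀ n : ℕ,
        0 < (H (powK prod X (2 * n + 1))).genTateDim q ∧
        √((n : ℝ) + 1) * (H (powK prod X (2 * n + 1))).tateDim q ≤
          C * (H (powK prod X (2 * n + 1))).genTateDim q)) ∧
    ∀ f : ℕ → ℝ, Tendsto (fun y : ℕ => f y * √(Real.log y)) atTop atTop →
      (∀ X, P X → f (H X).betti * (H X).genTateDim q ≤ (H X).tateDim q) →
      ∀ X, P X → ∀ m, (H X).Semisimple m := by
  refine ⟨fun X hX => ⟨fun h n => (dual_one hH hX q h n).2, fun h => ?_⟩, ?_⟩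
  · obtain ⟨d, B, hB⟩ := hPD X hX
    obtain ⟨-, C, -, hC⟩ := dual_rate hH hX hq hB h
    exact ⟨C, hC⟩
  intro f hf h X hX
  by_contra hcon
  obtain ⟨d, B, hB⟩ := hPD X hX
  obtain ⟨hb2, C, hC0, hC⟩ := dual_rate hH hX hq hB hcon
  set b : ℕ := (H X).betti with hb
  have hmap : Tendsto (fun n : ℕ => 2 * n + 2) atTop atTop :=
    tendsto_atTop_mono (fun n => by omega : ∀ n : ℕ, n ≤ 2 * n + 2) tendsto_id
  have h1 : Tendsto (fun n : ℕ => b ^ (2 * n + 2)) atTop atTop :=
    (_root_.tendsto_pow_atTop_atTop_of_one_lt (by omega : 1 < b)).comp hmap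
  have h2 := (hf.comp h1).eventually_gt_atTop (C * √(2 * Real.log b))
  obtain ⟨n, hn⟩ := h2.exists
  simp only [Function.comp_apply] at hn
  have hlogb : 0 < Real.log b := Real.log_pos (by exact_mod_cast (by omega : 1 < b))
  have hlog : Real.log ((b ^ (2 * n + 2) : ℕ) : ℝ) = (n + 1) * (2 * Real.log b) := by
    push_cast
    rw [Real.log_pow]
    push_cast
    ring
  have hsq : √(((n : ℝ) + 1) * (2 * Real.log b)) = √((n : ℝ) + 1) * √(2 * Real.log b) :=
    Real.sqrt_mul (by positivity) _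
  rw [hlog, hsq, ← mul_assoc] at hn
  have h3 := h (powK prod X (2 * n + 1)) (powK_mem hH hX _)
  rw [betti_powK hH hX (2 * n + 1), ← hb] at h3
  obtain ⟨h4, h5⟩ := hC n
  have h4' : (0 : ℝ) < (H (powK prod X (2 * n + 1))).genTateDim q := by exact_mod_cast h4
  have h6 : 0 < √(2 * Real.log b) := Real.sqrt_pos.2 (by positivity)
  have h7 : C < f (b ^ (2 * n + 2)) * √((n : ℝ) + 1) := lt_of_mul_lt_mul_right hn h6.le
  have h8 : √((n : ℝ) + 1) * (f (b ^ (2 * n + 1 + 1)) *
      (H (powK prod X (2 * n + 1))).genTateDim q) ≤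
      √((n : ℝ) + 1) * (H (powK prod X (2 * n + 1))).tateDim q :=
    mul_le_mul_of_nonneg_left h3 (Real.sqrt_nonneg _)
  have h9 : f (b ^ (2 * n + 2)) * √((n : ℝ) + 1) * (H (powK prod X (2 * n + 1))).genTateDim q ≤
      C * (H (powK prod X (2 * n + 1))).genTateDim q := by
    refine le_trans (le_of_eq ?_) (h8.trans h5)
    ring
  have h10 := le_of_mul_le_mul_right h9 h4'
  linarith

end

end Pool.Agent.N536.FS
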