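import Mathlib

/-!
# The logarithm of a unipotent element
-/

set_option autoImplicit false

open Finset Polynomial

namespace Pool.Agent.N536.FS

section comm

variable {A : Type*} [CommRing A] [Algebra ℚ A]

theorem exp_two {y : A} (hy : IsNilpotent y) :
    ∃ T, IsNilpotent.exp y = 1 + y + y ^ 2 * T := by
  obtain ⟨m, hm⟩ := hy
  have h : y ^ (m + 2) = 0 := by rw [pow_add, hm, zero_mul]
  refine ⟨∑ i ∈ range m, ((i + 2).factorial : ℚ)⁻¹ • y ^ i, ?_⟩
  rw [IsNilpotent.exp_eq_sum h, sum_range_succ', sum_range_succ', mul_sum]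
  have h1 : ∑ k ∈ range m, (((k + 1 + 1).factorial : ℚ)⁻¹ • y ^ (k + 1 + 1)) =
      ∑ i ∈ range m, y ^ 2 * (((i + 2).factorial : ℚ)⁻¹ • y ^ i) := by
    refine sum_congr rfl fun i _ => ?_
    rw [mul_smul_comm, ← pow_add, add_comm 2 i]
  rw [h1]
  simp
  ring

/-- A unipotent element is an exponential. -/
theorem exists_log {M : A} (hM : IsNilpotent M) :
    ∃ P : A, IsNilpotent P ∧ IsNilpotent.exp P = 1 + M := by
  have key : ∀ k : ℕ, ∃ P Q : A, IsNilpotent P ∧ IsNilpotent.exp P = 1 + M + M ^ (k + 1) * Q := by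
    intro k
    induction k with
    | zero =>
      refine ⟨0, -1, IsNilpotent.zero, ?_⟩
      rw [IsNilpotent.exp_zero]
      ring
    | succ k ih =>
      obtain ⟨P, Q, hP, hQ⟩ := ih
      have hy : IsNilpotent (-(M ^ (k + 1) * Q)) := by
        refine IsNilpotent.neg ?_
        exact (Commute.all _ _).isNilpotent_mul_right (hM.pow_succ k)
      obtain ⟨T, hT⟩ := exp_two hy
      refine ⟨P + -(M ^ (k + 1) * Q), -Q - M ^ k * Q ^ 2 +
        M ^ k * Q ^ 2 * T * (1 + M + M ^ (k + 1) * Q), (Commute.all _ _).isNilpotent_add hP hy, ?_⟩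
      rw [IsNilpotent.exp_add_of_commute (Commute.all _ _) hP hy, hQ, hT]
      ring
  obtain ⟨m, hm⟩ := hM
  obtain ⟨P, Q, hP, hQ⟩ := key m
  refine ⟨P, hP, ?_⟩
  rw [hQ, pow_succ, hm]
  ring

end comm

/-- A unipotent element is the exponential of a polynomial in it. -/
theorem exists_log_poly {A : Type*} [Ring A] [Algebra ℚ A] {M : A} (hM : IsNilpotent M) :
    ∃ p : ℚ[X], IsNilpotent (aeval M p) ∧ IsNilpotent.exp (aeval M p) = 1 + M := by
  obtain ⟨m, hm⟩ := hM
  let I : Ideal ℚ[X] := Ideal.span {X ^ m}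
  let φ : (ℚ[X] ⧸ I) →ₐ[ℚ] A := Ideal.Quotient.liftₐ I (aeval M) (by
    intro a ha
    obtain ⟨c, hc⟩ := Ideal.mem_span_singleton.1 ha
    rw [hc, map_mul, map_pow, aeval_X, hm, zero_mul])
  have hX : IsNilpotent (Ideal.Quotient.mk I X) := by
    refine ⟨m, ?_⟩
    rw [← map_pow, Ideal.Quotient.eq_zero_iff_mem]
    exact Ideal.subset_span rfl
  obtain ⟨P, hP, hPe⟩ := exists_log hX
  obtain ⟨p, rfl⟩ := Ideal.Quotient.mk_surjective P
  have h1 : φ (Ideal.Quotient.mk I p) = aeval M p := Ideal.Quotient.liftₐ_apply I _ _ _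
  have h2 : φ (Ideal.Quotient.mk I X) = M := by
    rw [show φ (Ideal.Quotient.mk I X) = aeval M X from Ideal.Quotient.liftₐ_apply I _ _ _, aeval_X]
  refine ⟨p, ?_, ?_⟩
  · rw [← h1]
    exact hP.map φ
  · rw [← h1, ← IsNilpotent.map_exp hP φ, hPe, map_add, map_one, h2]

/-- `exp N - 1` is the product of `N` with a unit which is a polynomial in `N`. -/
theorem exp_sub_one {A : Type*} [Ring A] [Algebra ℚ A] {N : A} (hN : IsNilpotent N) :
    ∃ U : A, IsUnit U ∧ (∀ Z, Commute Z N → Commute Z U) ∧ IsNilpotent.exp N - 1 = N * U := by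
  obtain ⟨m, hm⟩ := hN
  have h : N ^ (m + 2) = 0 := by rw [pow_add, hm, zero_mul]
  let T : A := ∑ i ∈ range m, ((i + 2).factorial : ℚ)⁻¹ • N ^ i
  have hT : ∀ Z, Commute Z N → Commute Z T := by
    intro Z hZ
    refine Commute.sum_right _ _ _ fun i _ => ?_
    exact (hZ.pow_right i).smul_right _
  refine ⟨1 + N * T, ?_, ?_, ?_⟩
  · refine IsNilpotent.isUnit_one_add ?_
    exact (hT N (Commute.refl N)).isNilpotent_mul_right ⟨m, hm⟩
  · intro Z hZ
    exact (Commute.one_right Z).add_right (hZ.mul_right (hT Z hZ))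
  · rw [IsNilpotent.exp_eq_sum h, sum_range_succ', sum_range_succ', mul_add, mul_one]
    have h1 : ∑ k ∈ range m, (((k + 1 + 1).factorial : ℚ)⁻¹ • N ^ (k + 1 + 1)) = N * (N * T) := by
      rw [mul_sum, mul_sum]
      refine sum_congr rfl fun i _ => ?_
      rw [mul_smul_comm, mul_smul_comm, ← pow_succ', ← pow_succ']
    rw [h1]
    simp
    abel

end Pool.Agent.N536.FS
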