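import Pool.Agent.Y163.MW.Base

/-!
# The Jordan normal form of a nilpotent operator
-/

set_option autoImplicit false

open Module

namespace Pool.Agent.N536.FS

open Pool.Agent.Y163.MW

universe u v

section

variable {K : Type u} [Field K] {V : Type v} [AddCommGroup V] [Module K V]

/-- The values of `φ` on the orbit. -/
def phiMap (N : Module.End K V) (φ : V →ₗ[K] K) (l : ℕ) : V →ₗ[K] (Fin (l + 1) → K) :=
  LinearMap.pi fun i => φ ∘ₗ (N ^ (i : ℕ))

theorem phiMap_apply (N : Module.End K V) (φ : V →ₗ[K] K) (l : ℕ) (y : V) (i : Fin (l + 1)) :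
    phiMap N φ l y i = φ ((N ^ (i : ℕ)) y) := rfl

/-- The combinations of the orbit of `x`. -/
noncomputable def comb (N : Module.End K V) (x : V) (l : ℕ) : (Fin (l + 1) → K) →ₗ[K] V :=
  ∑ j : Fin (l + 1), (LinearMap.proj j).smulRight ((N ^ (j : ℕ)) x)

theorem comb_apply (N : Module.End K V) (x : V) (l : ℕ) (c : Fin (l + 1) → K) :
    comb N x l c = ∑ j : Fin (l + 1), c j • (N ^ (j : ℕ)) x := by
  rw [comb, LinearMap.sum_apply]
  rfl

theorem phi_comb_surj (N : Module.End K V) {x : V} {φ : V →ₗ[K] K} {l : ℕ} (h0 : N ^ (l + 1) = 0)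
    (hφ : φ ((N ^ l) x) = 1) : Function.Surjective (phiMap N φ l ∘ₗ comb N x l) := by
  rw [← LinearMap.injective_iff_surjective, ← LinearMap.ker_eq_bot, LinearMap.ker_eq_bot']
  intro c hc
  have h1 : ∀ i : Fin (l + 1), ∑ j : Fin (l + 1), c j * φ ((N ^ ((i : ℕ) + (j : ℕ))) x) = 0 := by
    intro i
    have h2 := congrFun hc i
    rw [LinearMap.comp_apply, phiMap_apply, comb_apply, map_sum, map_sum] at h2
    rw [← Pi.zero_apply (M := fun _ => K) i, ← h2]
    refine Finset.sum_congr rfl fun j _ => ?_
    rw [map_smul, map_smul, smul_eq_mul, pow_add]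
    rfl
  have h3 : ∀ n : ℕ, ∀ j : Fin (l + 1), (j : ℕ) = n → c j = 0 := by
    intro n
    induction n using Nat.strong_induction_on with
    | _ n ih =>
      intro j hj
      have h4 := h1 ⟨l - j, by omega⟩
      rw [Finset.sum_eq_single j] at h4
      · simp only at h4
        rw [Nat.sub_add_cancel (by have := j.2; omega), hφ, mul_one] at h4
        exact h4
      · intro j' _ hjj
        rcases lt_or_gt_of_ne (fun h => hjj (Fin.ext h) : (j' : ℕ) ≠ j) with h5 | h5
        · rw [ih j' (by omega) j' rfl, zero_mul]
        · have h6 : N ^ ((l - (j : ℕ)) + (j' : ℕ)) = 0 := by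
            have h7 : (l - (j : ℕ)) + (j' : ℕ) = (l + 1) + ((l - (j : ℕ)) + (j' : ℕ) - (l + 1)) := by
              have := j.2
              omega
            rw [h7, pow_add, h0, zero_mul]
          simp only
          rw [h6, LinearMap.zero_apply, map_zero, mul_zero]
      · intro h
        exact absurd (Finset.mem_univ j) h
  exact funext fun j => h3 j j rfl

end

/-- **Jordan normal form of a nilpotent operator.** -/
theorem exists_jordan {K : Type u} [Field K] (d : ℕ) : ∀ (V : Type v) [AddCommGroup V] [Module K V]
    [Module.Finite K V] (N : Module.End K V), IsNilpotent N → finrank K V = d →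
    Nonempty (Strings (fun _ => (⊤ : Submodule K V)) N) := by
  induction d using Nat.strong_induction_on with
  | _ d ih =>
    intro V _ _ _ N hN hd
    by_cases hV : Subsingleton V
    · exact ⟨{ ι := Empty, fintype := inferInstance, len := Empty.elim, top := Empty.elim
               b := Basis.empty V
               mem := fun s => s.elim, succ := fun s => s.elim, last := fun s => s.elim }⟩
    rw [not_subsingleton_iff_nontrivial] at hV
    -- the longest string
    have hne : N ^ 0 ≠ 0 := by
      rw [pow_zero]
      exact one_ne_zero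
    classical
    have hex : ∃ m, N ^ m = 0 := hN
    set m := Nat.find hex with hm
    have hm0 : N ^ m = 0 := Nat.find_spec hex
    have hmpos : 0 < m := by
      rw [Nat.pos_iff_ne_zero]
      intro h0
      rw [h0] at hm0
      exact hne hm0
    obtain ⟨l, hl⟩ : ∃ l, m = l + 1 := ⟨m - 1, by omega⟩
    have hlne : N ^ l ≠ 0 := Nat.find_min hex (by omega)
    rw [hl] at hm0
    obtain ⟨x, hx⟩ : ∃ x, (N ^ l) x ≠ 0 := by
      by_contra hcon
      push Not at hcon
      exact hlne (LinearMap.ext hcon)
    obtain ⟨φ, hφ⟩ : ∃ φ : V →ₗ[K] K, φ ((N ^ l) x) = 1 :=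
      Module.Projective.exists_dual_eq_one K hx
    set Φ := phiMap N φ l with hΦ
    have hsurj := phi_comb_surj N hm0 hφ
    have hΦs : LinearMap.range Φ = ⊤ := by
      rw [LinearMap.range_eq_top]
      exact Function.Surjective.of_comp hsurj
    have hst : ∀ y ∈ LinearMap.ker Φ, N y ∈ LinearMap.ker Φ := by
      intro y hy
      rw [LinearMap.mem_ker] at hy ⊢
      funext i
      rw [hΦ, phiMap_apply, ← Module.End.mul_apply, ← pow_succ, Pi.zero_apply]
      by_cases hi : (i : ℕ) + 1 < l + 1
      · have := congrFun hy ⟨(i : ℕ) + 1, hi⟩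
        rw [hΦ, phiMap_apply] at this
        exact this
      · have : (i : ℕ) + 1 = l + 1 := by have := i.2; omega
        rw [this, hm0, LinearMap.zero_apply, map_zero]
    have hrank := LinearMap.finrank_range_add_finrank_ker Φ
    rw [hΦs, finrank_top, Module.finrank_fin_fun, hd] at hrank
    set N' : Module.End K (LinearMap.ker Φ) := N.restrict hst with hN'
    have hN'n : IsNilpotent N' := by
      refine ⟨l + 1, ?_⟩
      apply LinearMap.ext
      intro y
      apply Subtype.ext
      rw [hN', Module.End.pow_restrict, LinearMap.restrict_apply]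
      simp [hm0]
    obtain ⟨S⟩ := ih (finrank K (LinearMap.ker Φ)) (by omega) (LinearMap.ker Φ) N' hN'n rfl
    -- the new basis
    let len : Option S.ι → ℕ := fun o => o.elim l S.len
    let v : (Σ s : Option S.ι, Fin (len s + 1)) → V := fun p =>
      match p with
      | ⟨none, i⟩ => (N ^ (i : ℕ)) x
      | ⟨some s, i⟩ => ((S.b ⟨s, i⟩ : LinearMap.ker Φ) : V)
    have hspan : ⊤ ≤ Submodule.span K (Set.range v) := by
      intro y _
      obtain ⟨c, hc⟩ := hsurj (Φ y)
      have hcm : comb N x l c ∈ Submodule.span K (Set.range v) := by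
        rw [comb_apply]
        refine Submodule.sum_mem _ fun j _ => Submodule.smul_mem _ _ (Submodule.subset_span ?_)
        exact ⟨⟨none, j⟩, rfl⟩
      have hk : y - comb N x l c ∈ LinearMap.ker Φ := by
        rw [LinearMap.mem_ker, map_sub, sub_eq_zero]
        exact hc.symm
      have h2 : y - comb N x l c ∈ Submodule.span K (Set.range v) := by
        have h3 : (⟨y - comb N x l c, hk⟩ : LinearMap.ker Φ) ∈
            Submodule.span K (Set.range S.b) := by
          rw [S.b.span_eq]
          exact Submodule.mem_top
        have h4 := Submodule.mem_map_of_mem (f := (LinearMap.ker Φ).subtype) h3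
        rw [Submodule.map_span, ← Set.range_comp] at h4
        refine Submodule.span_mono ?_ h4
        rintro _ ⟨⟨s, i⟩, rfl⟩
        exact ⟨⟨some s, i⟩, rfl⟩
      have h5 := Submodule.add_mem _ h2 hcm
      rwa [sub_add_cancel] at h5
    have hcard : Fintype.card (Σ s : Option S.ι, Fin (len s + 1)) = finrank K V := by
      rw [hd, ← hrank, Fintype.card_sigma, Fintype.sum_option, Fintype.card_fin]
      congr 1
      rw [finrank_eq_card_basis S.b, Fintype.card_sigma]
      rfl
    have hb : ∀ p, basisOfTopLeSpanOfCardEqFinrank v hspan hcard p = v p := fun p => by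
      rw [coe_basisOfTopLeSpanOfCardEqFinrank]
    refine ⟨{ ι := Option S.ι, fintype := inferInstance, len := len, top := fun _ => 0
              b := basisOfTopLeSpanOfCardEqFinrank v hspan hcard
              mem := fun _ _ => Submodule.mem_top
              succ := ?_, last := ?_ }⟩
    · rintro (_ | s) i
      · rw [hb, hb]
        show N ((N ^ (i : ℕ)) x) = (N ^ ((i : ℕ) + 1)) x
        rw [pow_succ']
        rfl
      · rw [hb, hb]
        exact congrArg Subtype.val (S.succ s i)
    · rintro (_ | s)
      · rw [hb]
        show N ((N ^ l) x) = 0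
        rw [← Module.End.mul_apply, ← pow_succ', hm0, LinearMap.zero_apply]
      · rw [hb]
        exact congrArg Subtype.val (S.last s)

end Pool.Agent.N536.FS
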