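import Pool.Agent.N536.FS.Exp

/-!
# The multiplicative Jordan decomposition `F = S exp(N)` and the number of Jordan blocks
-/

set_option autoImplicit false
set_option linter.unusedSectionVars false

open Module Finset TensorProduct Polynomial

namespace Pool.Agent.N536.FS

universe v w

section

variable {Ω : Type w} [Field Ω] [CharZero Ω] {V : Type v} [AddCommGroup V] [Module Ω V]

/-- The multiplicative Jordan decomposition: `F` is injective and `F = S exp(N)` with `S`
diagonalisable, `N` nilpotent and `S N = N S`. -/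
structure IsMJ (F S N : Module.End Ω V) : Prop where
  inj : Function.Injective F
  semi : ⨆ α, S.eigenspace α = ⊤
  nil : IsNilpotent N
  comm : Commute S N
  eq : ∀ k, N ^ k = 0 → F = S * ∑ i ∈ range k, ((i.factorial : Ω)⁻¹) • N ^ i

theorem exp_eq [Module ℚ V] {N : Module.End Ω V} {k : ℕ} (h : N ^ k = 0) :
    IsNilpotent.exp N = ∑ i ∈ range k, ((i.factorial : Ω)⁻¹) • N ^ i := by
  rw [IsNilpotent.exp_eq_sum h]
  refine sum_congr rfl fun i _ => ?_
  have h1 : ((i.factorial : Ω)⁻¹) = (((i.factorial : ℚ)⁻¹ : ℚ) : Ω) := by push_cast; rfl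
  rw [h1, Rat.cast_smul_eq_qsmul]

theorem IsMJ.of_exp [Module ℚ V] {F S N : Module.End Ω V} (inj : Function.Injective F)
    (semi : ⨆ α, S.eigenspace α = ⊤) (nil : IsNilpotent N) (comm : Commute S N)
    (eq : F = S * IsNilpotent.exp N) : IsMJ F S N :=
  ⟨inj, semi, nil, comm, fun k hk => by rw [eq, exp_eq hk]⟩

theorem IsMJ.eq_exp [Module ℚ V] {F S N : Module.End Ω V} (h : IsMJ F S N) :
    F = S * IsNilpotent.exp N := by
  obtain ⟨k, hk⟩ := h.nil
  rw [exp_eq hk]
  exact h.eq k hk

theorem commute_aeval [Module ℚ V] {Z M : Module.End Ω V} (h : Commute Z M) (p : ℚ[X]) :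
    Commute Z (aeval M p) := by
  rw [aeval_eq_sum_range]
  exact Commute.sum_right _ _ _ fun i _ => (h.pow_right i).smul_right _

/-- The existence of the multiplicative Jordan decomposition. -/
theorem exists_mj [IsAlgClosed Ω] [Module.Finite Ω V] (F : Module.End Ω V)
    (hF : Function.Injective F) :
    ∃ S N : Module.End Ω V, IsMJ F S N ∧ ∀ Z, Commute Z F → Commute Z S ∧ Commute Z N := by
  let _ : Module ℚ V := Module.compHom V (algebraMap ℚ Ω)
  obtain ⟨n, hn, s, hs, hnil, hss, hns⟩ := Module.End.exists_isNilpotent_isSemisimple (f := F)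
  have hcs : ∀ Z, Commute Z F → Commute Z s := fun Z hZ =>
    Algebra.commute_of_mem_adjoin_singleton_of_commute hs hZ
  have hcn : ∀ Z, Commute Z F → Commute Z n := fun Z hZ =>
    Algebra.commute_of_mem_adjoin_singleton_of_commute hn hZ
  have hsF : Commute s F := (hcs F (Commute.refl F)).symm
  have hsn : Commute s n := hcn s hsF
  have hinj : Function.Injective s := by
    rw [← LinearMap.ker_eq_bot, LinearMap.ker_eq_bot']
    intro x hx
    have h1 : ∀ k : ℕ, (F ^ k) x = (n ^ k) x ∧ s ((n ^ k) x) = 0 := by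
      intro k
      induction k with
      | zero => exact ⟨rfl, hx⟩
      | succ k ih =>
        have h2 : s ((n ^ (k + 1)) x) = 0 := by
          have h3 : s * n ^ (k + 1) = n ^ (k + 1) * s := hsn.pow_right (k + 1)
          calc s ((n ^ (k + 1)) x) = (s * n ^ (k + 1)) x := rfl
            _ = (n ^ (k + 1) * s) x := by rw [h3]
            _ = (n ^ (k + 1)) (s x) := rfl
            _ = 0 := by rw [hx, map_zero]
        refine ⟨?_, h2⟩
        rw [pow_succ', Module.End.mul_apply, ih.1, hns, LinearMap.add_apply, ih.2, add_zero,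
          pow_succ', Module.End.mul_apply]
    obtain ⟨k, hk⟩ := hnil
    have h4 := (h1 k).1
    rw [hk, LinearMap.zero_apply] at h4
    have h5 : Function.Injective (F ^ k) := by
      rw [Module.End.coe_pow]
      exact hF.iterate k
    exact h5 (by rw [h4, map_zero])
  have hunit : IsUnit s := by
    rw [Module.End.isUnit_iff]
    exact ⟨hinj, LinearMap.injective_iff_surjective.1 hinj⟩
  obtain ⟨u, hu⟩ := hunit
  have hcu : ∀ Z, Commute Z F → Commute Z (↑u⁻¹ : Module.End Ω V) := fun Z hZ => by
    have := hcs Z hZ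
    rw [← hu] at this
    exact this.units_inv_right
  set M : Module.End Ω V := ↑u⁻¹ * n with hM
  have hcM : ∀ Z, Commute Z F → Commute Z M := fun Z hZ => (hcu Z hZ).mul_right (hcn Z hZ)
  have hnF : Commute n F := (hcn F (Commute.refl F)).symm
  have hMnil : IsNilpotent M := by
    rw [hM]
    exact (hcu n hnF).symm.isNilpotent_mul_left hnil
  obtain ⟨p, hp, hpe⟩ := exists_log_poly hMnil
  refine ⟨s, aeval M p, ?_, fun Z hZ => ⟨hcs Z hZ, commute_aeval (hcM Z hZ) p⟩⟩
  refine IsMJ.of_exp hF hss.iSup_eigenspace_eq_top hp (commute_aeval (hcM s hsF) p) ?_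
  rw [hpe, mul_add, mul_one, hM, ← mul_assoc, ← hu, Units.mul_inv, one_mul, hu]
  nth_rewrite 1 [hns]
  rw [add_comm]

variable {F S N : Module.End Ω V}

theorem IsMJ.pow_apply (h : IsMJ F S N) : ∃ U : Module.End Ω V, Function.Injective U ∧
    ∀ (β : Ω) (k : ℕ) (y : V), S y = β • y →
      ((F - β • (1 : Module.End Ω V)) ^ k) y = β ^ k • (U ^ k) ((N ^ k) y) := by
  let _ : Module ℚ V := Module.compHom V (algebraMap ℚ Ω)
  obtain ⟨U, hU, hcU, hNU⟩ := exp_sub_one h.nil
  refine ⟨U, ?_, ?_⟩
  · rw [Module.End.isUnit_iff] at hU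
    exact hU.1
  intro β k y hy
  have hSU : Commute S U := hcU S h.comm
  have hSNU : Commute S (N * U) := h.comm.mul_right hSU
  have hexp : IsNilpotent.exp N = 1 + N * U := by rw [← hNU]; abel
  have h1 : ∀ z : V, S z = β • z → (F - β • (1 : Module.End Ω V)) z = β • (N * U) z := by
    intro z hz
    have h2 : F = (1 + N * U) * S := by
      rw [h.eq_exp, hexp]
      exact (((Commute.one_right S).add_right hSNU)).eq
    rw [LinearMap.sub_apply, h2, Module.End.mul_apply, hz, map_smul, LinearMap.add_apply,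
      Module.End.one_apply, LinearMap.smul_apply, Module.End.one_apply, smul_add]
    abel
  have h3 : ∀ j : ℕ, S (((N * U) ^ j) y) = β • ((N * U) ^ j) y := by
    intro j
    have h4 : S * (N * U) ^ j = (N * U) ^ j * S := hSNU.pow_right j
    calc S (((N * U) ^ j) y) = (S * (N * U) ^ j) y := rfl
      _ = ((N * U) ^ j * S) y := by rw [h4]
      _ = ((N * U) ^ j) (S y) := rfl
      _ = β • ((N * U) ^ j) y := by rw [hy, map_smul]
  have h5 : ∀ j : ℕ, ((F - β • (1 : Module.End Ω V)) ^ j) y = β ^ j • ((N * U) ^ j) y := by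
    intro j
    induction j with
    | zero => rw [pow_zero, pow_zero, pow_zero, one_smul]
    | succ j ih =>
      rw [pow_succ', Module.End.mul_apply, ih, map_smul, h1 _ (h3 j), smul_smul, ← pow_succ,
        pow_succ' (N * U) j]
      rfl
  rw [h5, (hcU N (Commute.refl N)).mul_pow, ((hcU N (Commute.refl N)).pow_pow k k).eq]
  rfl

/-- The eigenspace of `S` for `0` is zero. -/
theorem IsMJ.ne_zero (h : IsMJ F S N) {β : Ω} {y : V} (hy : S y = β • y) (hy0 : y ≠ 0) :
    β ≠ 0 := by
  intro hβ
  rw [hβ, zero_smul] at hy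
  apply hy0
  apply h.inj
  obtain ⟨k, hk⟩ := h.nil
  have h1 := h.eq k hk
  have h2 : Commute S (∑ i ∈ range k, ((i.factorial : Ω)⁻¹) • N ^ i) :=
    Commute.sum_right _ _ _ fun i _ => (h.comm.pow_right i).smul_right _
  rw [h1, h2.eq, Module.End.mul_apply, hy, map_zero, map_zero]

theorem IsMJ.mem_iff (h : IsMJ F S N) {β : Ω} {y : V} (hy : S y = β • y) (k : ℕ) :
    y ∈ F.genEigenspace β k ↔ y ∈ LinearMap.ker (N ^ k) := by
  by_cases hy0 : y = 0
  · rw [hy0]
    exact ⟨fun _ => Submodule.zero_mem _, fun _ => Submodule.zero_mem _⟩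
  obtain ⟨U, hU, hUk⟩ := h.pow_apply
  have hβ := h.ne_zero hy hy0
  have hUi : Function.Injective (U ^ k) := by
    rw [Module.End.coe_pow]
    exact hU.iterate k
  rw [Module.End.mem_genEigenspace_nat, LinearMap.mem_ker, LinearMap.mem_ker, hUk β k y hy,
    smul_eq_zero_iff_right (pow_ne_zero k hβ)]
  constructor
  · intro h1
    exact hUi (by rw [h1, map_zero])
  · intro h1
    rw [h1, map_zero]

theorem IsMJ.commute (h : IsMJ F S N) : Commute F S ∧ Commute F N := by
  obtain ⟨k, hk⟩ := h.nil
  have h1 := h.eq k hk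
  have h2 : Commute S (∑ i ∈ range k, ((i.factorial : Ω)⁻¹) • N ^ i) :=
    Commute.sum_right _ _ _ fun i _ => (h.comm.pow_right i).smul_right _
  have h3 : Commute N (∑ i ∈ range k, ((i.factorial : Ω)⁻¹) • N ^ i) :=
    Commute.sum_right _ _ _ fun i _ => ((Commute.refl N).pow_right i).smul_right _
  constructor
  · rw [h1]
    exact (Commute.refl S).mul_left h2.symm
  · rw [h1]
    exact h.comm.mul_left h3.symm

/-- The sum of the spaces `ker (F - α) ^ k` is the kernel of `N ^ k`; more generally this holds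
on a stable subspace. -/
theorem IsMJ.ker_pow [Module.Finite Ω V] (h : IsMJ F S N) (k : ℕ) :
    ⨆ α, F.genEigenspace α k = LinearMap.ker (N ^ k) := by
  apply le_antisymm
  · refine iSup_le fun α => ?_
    have h1 : ∀ x ∈ F.genEigenspace α k, S x ∈ F.genEigenspace α k := fun x hx =>
      Module.End.mapsTo_genEigenspace_of_comm h.commute.1 α k hx
    have h2 := Submodule.inf_iSup_genEigenspace h1 1
    have h3 : (⨆ μ, S.genEigenspace μ 1) = ⊤ := h.semi
    rw [h3, inf_top_eq] at h2
    rw [h2]
    refine iSup_le fun β => ?_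
    rintro y ⟨hy1, hy2⟩
    have hy3 : S y = β • y := Module.End.mem_genEigenspace_one.1 hy2
    obtain ⟨m, hm⟩ := h.nil
    by_cases hβ : β = α
    · rw [← hβ] at hy1
      exact (h.mem_iff hy3 k).1 hy1
    · have h4 : y ∈ F.genEigenspace β m := (h.mem_iff hy3 m).2 (by
        rw [LinearMap.mem_ker, hm, LinearMap.zero_apply])
      have h5 := Module.End.disjoint_genEigenspace F hβ m k
      have h6 : y = 0 := by
        have := h5.le_bot ⟨h4, hy1⟩
        simpa using this
      rw [h6]
      exact Submodule.zero_mem _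
  · have h1 : ∀ x ∈ LinearMap.ker (N ^ k), S x ∈ LinearMap.ker (N ^ k) := by
      intro x hx
      rw [LinearMap.mem_ker] at hx ⊢
      have h4 : S * N ^ k = N ^ k * S := h.comm.pow_right k
      calc (N ^ k) (S x) = (N ^ k * S) x := rfl
        _ = (S * N ^ k) x := by rw [h4]
        _ = S ((N ^ k) x) := rfl
        _ = 0 := by rw [hx, map_zero]
    have h2 := Submodule.inf_iSup_genEigenspace h1 1
    have h3 : (⨆ μ, S.genEigenspace μ 1) = ⊤ := h.semi
    rw [h3, inf_top_eq] at h2
    rw [h2]
    refine iSup_le fun β => ?_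
    rintro y ⟨hy1, hy2⟩
    have hy3 : S y = β • y := Module.End.mem_genEigenspace_one.1 hy2
    exact Submodule.mem_iSup_of_mem β ((h.mem_iff hy3 k).2 hy1)

end

section

variable {Ω : Type w} [Field Ω] [CharZero Ω] {V V' V'' : Type v} [AddCommGroup V] [Module Ω V]
  [AddCommGroup V'] [Module Ω V'] [AddCommGroup V''] [Module Ω V'']

/-- Tensor products. -/
theorem IsMJ.tensor {F S N : Module.End Ω V} {F' S' N' : Module.End Ω V'} (h : IsMJ F S N)
    (h' : IsMJ F' S' N') : IsMJ (TensorProduct.map F F') (TensorProduct.map S S')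
    (TensorProduct.map N LinearMap.id + TensorProduct.map LinearMap.id N') := by
  let _ : Module ℚ V := Module.compHom V (algebraMap ℚ Ω)
  let _ : Module ℚ V' := Module.compHom V' (algebraMap ℚ Ω)
  let _ : Module ℚ (V ⊗[Ω] V') := Module.compHom _ (algebraMap ℚ Ω)
  have e1 : (TensorProduct.map N LinearMap.id : Module.End Ω (V ⊗[Ω] V')) =
      Module.End.rTensorAlgHom Ω V V' N := rfl
  have e2 : (TensorProduct.map LinearMap.id N' : Module.End Ω (V ⊗[Ω] V')) =
      Module.End.lTensorAlgHom Ω V' V N' := rfl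
  have n1 : IsNilpotent (TensorProduct.map N LinearMap.id : Module.End Ω (V ⊗[Ω] V')) := by
    rw [e1]
    exact h.nil.map _
  have n2 : IsNilpotent (TensorProduct.map LinearMap.id N' : Module.End Ω (V ⊗[Ω] V')) := by
    rw [e2]
    exact h'.nil.map _
  have hc : Commute (TensorProduct.map N LinearMap.id : Module.End Ω (V ⊗[Ω] V'))
      (TensorProduct.map LinearMap.id N' : Module.End Ω (V ⊗[Ω] V')) := by
    refine TensorProduct.ext' fun x y => ?_
    simp
  refine IsMJ.of_exp ?_ ?_ (hc.isNilpotent_add n1 n2) ?_ ?_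
  · rw [← LinearMap.lTensor_comp_rTensor]
    exact (Module.Flat.lTensor_preserves_injective_linearMap F' h'.inj).comp
      (Module.Flat.rTensor_preserves_injective_linearMap F h.inj)
  · rw [eq_top_iff]
    set T : Submodule Ω (V ⊗[Ω] V') :=
      ⨆ α, Module.End.eigenspace (TensorProduct.map S S') α with hT
    have h1 : ∀ (x : V) (y : V'), x ⊗ₜ[Ω] y ∈ T := by
      intro x y
      have h2 : (⊤ : Submodule Ω V) ≤ T.comap ((TensorProduct.mk Ω V V').flip y) := by
        rw [← h.semi]
        refine iSup_le fun α z hz => ?_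
        have h3 : (⊤ : Submodule Ω V') ≤ T.comap (TensorProduct.mk Ω V V' z) := by
          rw [← h'.semi]
          refine iSup_le fun β t ht => ?_
          refine Submodule.mem_iSup_of_mem (α * β) ?_
          rw [Module.End.mem_eigenspace_iff] at hz ht ⊢
          rw [TensorProduct.mk_apply, TensorProduct.map_tmul, hz, ht, TensorProduct.smul_tmul_smul]
        exact h3 (Submodule.mem_top (x := y))
      exact h2 (Submodule.mem_top (x := x))
    intro z _
    induction z using TensorProduct.induction_on with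
    | zero => exact Submodule.zero_mem _
    | tmul x y => exact h1 x y
    | add a b ha hb => exact Submodule.add_mem _ (ha trivial) (hb trivial)
  · have h1 : Commute (TensorProduct.map S S' : Module.End Ω (V ⊗[Ω] V'))
        (TensorProduct.map N LinearMap.id) := by
      refine TensorProduct.ext' fun x y => ?_
      have := LinearMap.congr_fun h.comm.eq x
      simp only [Module.End.mul_apply] at this
      simp [this]
    have h2 : Commute (TensorProduct.map S S' : Module.End Ω (V ⊗[Ω] V'))
        (TensorProduct.map LinearMap.id N') := by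
      refine TensorProduct.ext' fun x y => ?_
      have := LinearMap.congr_fun h'.comm.eq y
      simp only [Module.End.mul_apply] at this
      simp [this]
    exact h1.add_right h2
  · rw [IsNilpotent.exp_add_of_commute hc n1 n2, e1, e2, ← IsNilpotent.map_exp h.nil,
      ← IsNilpotent.map_exp h'.nil]
    refine TensorProduct.ext' fun x y => ?_
    have h3 := LinearMap.congr_fun h.eq_exp x
    have h4 := LinearMap.congr_fun h'.eq_exp y
    rw [TensorProduct.map_tmul, h3, h4]
    rfl

/-- Transport. -/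
theorem IsMJ.conj {F S N : Module.End Ω V} (h : IsMJ F S N) (κ : V ≃ₗ[Ω] V')
    {F' S' N' : Module.End Ω V'} (hF : ∀ x, F' (κ x) = κ (F x)) (hS : ∀ x, S' (κ x) = κ (S x))
    (hN : ∀ x, N' (κ x) = κ (N x)) : IsMJ F' S' N' := by
  have hNk : ∀ k x, (N' ^ k) (κ x) = κ ((N ^ k) x) := by
    intro k
    induction k with
    | zero => intro x; rfl
    | succ k ih =>
      intro x
      rw [pow_succ, Module.End.mul_apply, hN, ih, pow_succ, Module.End.mul_apply]
  have hz : ∀ k, N' ^ k = 0 → N ^ k = 0 := by
    intro k hk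
    ext x
    apply κ.injective
    rw [← hNk, hk, LinearMap.zero_apply, LinearMap.zero_apply, map_zero]
  refine ⟨?_, ?_, ?_, ?_, ?_⟩
  · intro x y hxy
    obtain ⟨x, rfl⟩ := κ.surjective x
    obtain ⟨y, rfl⟩ := κ.surjective y
    rw [hF, hF] at hxy
    rw [h.inj (κ.injective hxy)]
  · rw [eq_top_iff]
    intro z _
    obtain ⟨x, rfl⟩ := κ.surjective z
    have h1 : (⊤ : Submodule Ω V) ≤ (⨆ α, S'.eigenspace α).comap κ.toLinearMap := by
      rw [← h.semi]
      refine iSup_le fun α t ht => ?_
      refine Submodule.mem_iSup_of_mem α ?_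
      rw [Module.End.mem_eigenspace_iff] at ht ⊢
      rw [LinearEquiv.coe_coe, hS, ht, map_smul]
    exact h1 (Submodule.mem_top (x := x))
  · obtain ⟨k, hk⟩ := h.nil
    refine ⟨k, ?_⟩
    ext z
    obtain ⟨x, rfl⟩ := κ.surjective z
    rw [hNk, hk, LinearMap.zero_apply, LinearMap.zero_apply, map_zero]
  · refine LinearMap.ext fun z => ?_
    obtain ⟨x, rfl⟩ := κ.surjective z
    have := LinearMap.congr_fun h.comm.eq x
    rw [Module.End.mul_apply, Module.End.mul_apply] at this
    rw [Module.End.mul_apply, Module.End.mul_apply, hN, hS, hS, hN, this]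
  · intro k hk
    have h1 := h.eq k (hz k hk)
    ext z
    obtain ⟨x, rfl⟩ := κ.surjective z
    rw [hF, h1, Module.End.mul_apply, Module.End.mul_apply, ← hS]
    congr 1
    rw [LinearMap.sum_apply, LinearMap.sum_apply, map_sum]
    refine sum_congr rfl fun i _ => ?_
    rw [LinearMap.smul_apply, LinearMap.smul_apply, map_smul, hNk]

end

end Pool.Agent.N536.FS
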