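import Pool.Agent.N536.FS.Defs
import Pool.Agent.N536.FS.MJ
import Pool.Agent.N536.FS.Jordan
import Pool.Agent.N536.FS.Count
import Pool.Agent.N536.MW.Law

/-!
# The number of Jordan blocks of Frobenius on the powers of a variety
-/

set_option autoImplicit false
set_option linter.unusedSectionVars false

open Module TensorProduct Filter Topology

namespace Pool.Agent.N536.FS

universe u v w

open Pool.Agent.Y163.MW

section

variable {Ω : Type w} [Field Ω] [CharZero Ω]

/-- There is a multiplicative Jordan decomposition `F = S exp(N)` and a basis which consists of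
weight vectors of weights `a i` for a representation of `sl(2)` with lowering operator `N`. -/
def JAdp (R : FCoh.{v, w} Ω) {I : Type} (a : I → ℤ) : Prop :=
  ∃ (S N e h : Module.End Ω R.V) (b : Basis I Ω R.V), IsMJ R.F S N ∧ IsSl2 N b a e h

variable {R R' R'' : FCoh.{v, w} Ω}

theorem JAdp.reindex {I J : Type} {a : I → ℤ} (H : JAdp R a) (E : I ≃ J) (a' : J → ℤ)
    (ha : ∀ j, a' j = a (E.symm j)) : JAdp R a' := by
  obtain ⟨S, N, e, h, b, hJ, hs⟩ := H
  refine ⟨S, N, e, h, b.reindex E, hJ, ⟨fun j => ?_, hs.eN, hs.hN, hs.he⟩⟩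
  rw [Basis.reindex_apply, ha]
  exact hs.wt _

theorem JAdp.prod {I J : Type} {a : I → ℤ} {a' : J → ℤ} (H : JAdp R a) (H' : JAdp R' a')
    {κ : R.V ⊗[Ω] R'.V ≃ₗ[Ω] R''.V} (hκ : IsFKunneth R R' R'' κ) :
    JAdp R'' (fun p : I × J => a p.1 + a' p.2) := by
  obtain ⟨S, N, e, h, b, hJ, hs⟩ := H
  obtain ⟨S', N', e', h', b', hJ', hs'⟩ := H'
  have h1 := Pool.Agent.Y210.MW.t_B3 Ω R.V R'.V N I b a e h N' J b' a' e' h' hs hs'
  have hκF : ∀ z, R''.F (κ z) = κ (TensorProduct.map R.F R'.F z) := by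
    intro z
    induction z using TensorProduct.induction_on with
    | zero => simp
    | tmul x y => exact hκ.frob x y
    | add x y hx hy => rw [map_add, map_add, map_add, map_add, hx, hy]
  have h2 := (hJ.tensor hJ').conj κ (F' := R''.F) (S' := κ.conj (TensorProduct.map S S'))
    (N' := κ.conj (TensorProduct.map N LinearMap.id + TensorProduct.map LinearMap.id N')) hκF
    (fun x => by rw [LinearEquiv.conj_apply_apply, κ.symm_apply_apply])
    (fun x => by rw [LinearEquiv.conj_apply_apply, κ.symm_apply_apply])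
  exact ⟨_, _, _, _, _, h2, h1.map κ (fun x => by
    rw [LinearEquiv.conj_apply_apply, κ.symm_apply_apply])⟩

section

variable {I : Type} [Fintype I] {a : I → ℤ}

theorem JAdp.betti_eq (H : JAdp R a) : R.betti = Fintype.card I := by
  obtain ⟨S, N, e, h, b, hJ, hs⟩ := H
  exact finrank_eq_card_basis b

theorem blocks_eq_ker [Module.Finite Ω R.V] {S N : Module.End Ω R.V} (hJ : IsMJ R.F S N) :
    R.blocks = finrank Ω (LinearMap.ker N) := by
  have h1 := hJ.ker_pow 1
  rw [pow_one] at h1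
  unfold FCoh.blocks
  rw [← h1]
  rfl

theorem kerDim_eq [Module.Finite Ω R.V] {S N : Module.End Ω R.V} (hJ : IsMJ R.F S N) (k : ℕ) :
    R.kerDim k = finrank Ω (LinearMap.ker (N ^ k)) := by
  have h1 : (⨆ α : Ω, LinearMap.ker ((R.F - α • (1 : Module.End Ω R.V)) ^ k)) =
      LinearMap.ker (N ^ k) := by
    rw [← hJ.ker_pow k]
    exact iSup_congr fun α => Module.End.genEigenspace_nat.symm
  unfold FCoh.kerDim
  rw [h1]

theorem JAdp.blocks_eq (H : JAdp R a) : R.blocks = Nat.card {i // a i = 0 ∨ a i = 1} := by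
  obtain ⟨S, N, e, h, b, hJ, hs⟩ := H
  have := Module.Finite.of_basis b
  rw [blocks_eq_ker hJ]
  exact Pool.Agent.N536.MW.b1 Ω R.V N I b a e h hs

end

/-- Semisimplicity in all the degrees. -/
theorem semisimple_iff (hR : R.IsFCoh) :
    (∀ m, R.Semisimple m) ↔ ⨆ α : Ω, R.F.eigenspace α = ⊤ := by
  have := hR.finite
  constructor
  · intro h
    rw [eq_top_iff, ← hR.isInternal.submodule_iSup_eq_top]
    refine iSup_le fun m => ?_
    rw [← h m]
    exact iSup_mono fun α => inf_le_right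
  · intro h m
    have h1 := Submodule.inf_iSup_genEigenspace (hR.F_gr m) 1
    have h2 : (⨆ μ, R.F.genEigenspace μ 1) = ⊤ := h
    rw [h2, inf_top_eq] at h1
    exact h1.symm

theorem semisimple_iff_zero (hR : R.IsFCoh) {S N : Module.End Ω R.V} (hJ : IsMJ R.F S N) :
    (∀ m, R.Semisimple m) ↔ N = 0 := by
  have := hR.finite
  have h1 := hJ.ker_pow 1
  rw [pow_one] at h1
  rw [semisimple_iff hR, ← LinearMap.ker_eq_top, ← h1]
  rfl

/-- Data for the cohomology of a variety. -/
theorem exists_data [IsAlgClosed Ω] (hR : R.IsFCoh) :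
    ∃ (S N : Module.End Ω R.V) (T : Strings (fun _ => (⊤ : Submodule Ω R.V)) N),
      IsMJ R.F S N ∧ JAdp R T.ct := by
  have := hR.finite
  obtain ⟨S, N, hJ, -⟩ := exists_mj R.F hR.F_inj
  obtain ⟨T⟩ := exists_jordan _ R.V N hJ.nil rfl
  obtain ⟨e, h, hs⟩ := Pool.Agent.Y664.MW.t_B2 Ω R.V _ N T
  exact ⟨S, N, T, hJ, S, N, e, h, T.b, hJ, hs⟩

theorem moment_eq (hR : R.IsFCoh) {S N : Module.End Ω R.V}
    (T : Strings (fun _ => (⊤ : Submodule Ω R.V)) N) (hJ : IsMJ R.F S N) :
    R.moment = ∑ p, T.ct p ^ 2 := by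
  have := hR.finite
  have h1 : R.moment = ∑ᶠ k : ℕ, 2 * (k : ℤ) * finrank Ω (LinearMap.range (N ^ k)) := by
    unfold FCoh.moment
    refine finsum_congr fun k => ?_
    have h2 := LinearMap.finrank_range_add_finrank_ker (N ^ k)
    rw [kerDim_eq hJ k]
    unfold FCoh.betti
    rw [← h2]
    push_cast
    ring
  rw [h1]
  exact Pool.Agent.Y461.MW.h Ω R.V _ N T

end

section

variable {K : Type v} {V : Type w} [Field K] [AddCommGroup V] [Module K V]
  {gr : ℤ → Submodule K V} {N : Module.End K V}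

theorem exists_len (T : Strings gr N) (hN : N ≠ 0) : ∃ s, 1 ≤ T.len s := by
  by_contra hcon
  push Not at hcon
  apply hN
  apply T.b.ext
  rintro ⟨s, i⟩
  have h0 : T.len s = 0 := by have := hcon s; omega
  have hi : i = Fin.last (T.len s) := by
    apply Fin.ext
    have := i.2
    rw [Fin.val_last]
    omega
  rw [hi, T.last, LinearMap.zero_apply]

theorem exists_two (T : Strings gr N) (hN : N ≠ 0) : ∃ p p', T.ct p = T.ct p' + 2 := by
  obtain ⟨s, hs⟩ := exists_len T hN
  refine ⟨⟨s, ⟨0, by omega⟩⟩, ⟨s, ⟨1, by omega⟩⟩, ?_⟩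
  unfold Strings.ct
  simp

theorem ct_symm (T : Strings gr N) (r : ℤ) :
    Nat.card {p // T.ct p = r} = Nat.card {p // T.ct p = -r} := by
  let E : T.P ≃ T.P := Equiv.sigmaCongrRight fun s => Fin.revPerm
  refine Nat.card_congr (E.subtypeEquiv ?_)
  rintro ⟨s, i⟩
  have hE : T.ct (E ⟨s, i⟩) = -T.ct ⟨s, i⟩ := by
    show (T.len s : ℤ) - 2 * ((Fin.rev i : Fin (T.len s + 1)) : ℕ) =
      -((T.len s : ℤ) - 2 * (i : ℕ))
    rw [Fin.val_rev]
    have := i.2
    omega
  rw [hE]
  omega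

theorem sum_pos (T : Strings gr N) (hN : N ≠ 0) : 0 < ∑ p, T.ct p ^ 2 := by
  obtain ⟨p, p', hpp⟩ := exists_two T hN
  have h1 : ∀ k, 0 ≤ T.ct k ^ 2 := fun k => sq_nonneg _
  rcases eq_or_ne (T.ct p) 0 with h0 | h0
  · have h2 : T.ct p' ≠ 0 := by omega
    have h3 : 0 < T.ct p' ^ 2 := by positivity
    exact lt_of_lt_of_le h3 (Finset.single_le_sum (f := fun k => T.ct k ^ 2) (fun k _ => h1 k)
      (Finset.mem_univ p'))
  · have h3 : 0 < T.ct p ^ 2 := by positivity
    exact lt_of_lt_of_le h3 (Finset.single_le_sum (f := fun k => T.ct k ^ 2) (fun k _ => h1 k)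
      (Finset.mem_univ p))

end

section

variable {k : Type u} [Field k] {Ω : Type w} [Field Ω] [CharZero Ω]
  {P : PVar.{u} k → Prop} {H : PVar.{u} k → FCoh.{v, w} Ω}

theorem pow_mem (hH : IsFTheory P H) {X : PVar.{u} k} (hX : P X) : ∀ n, P (X.pow n)
  | 0 => hX
  | n + 1 => hH.prod X (X.pow n) hX (pow_mem hH hX n)

theorem jadp_pow (hH : IsFTheory P H) {X : PVar.{u} k} (hX : P X) {I : Type} {a : I → ℤ}
    (h : JAdp (H X) a) (n : ℕ) :
    JAdp (H (X.pow n)) (fun g : Fin (n + 1) → I => ∑ k, a (g k)) := by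
  induction n with
  | zero =>
    have h' : JAdp (H (X.pow 0)) a := h
    refine h'.reindex (Equiv.funUnique (Fin 1) I).symm _ (fun g => ?_)
    simp
  | succ n ih =>
    obtain ⟨κ, hκ⟩ := hH.kunneth X (X.pow n) hX (pow_mem hH hX n)
    have h' : JAdp (H (X.pow (n + 1)))
        (fun p : I × (Fin (n + 1) → I) => a p.1 + ∑ k, a (p.2 k)) := h.prod ih hκ
    refine h'.reindex (Fin.consEquiv (fun _ => I)) _ (fun g => ?_)
    rw [Fin.sum_univ_succ]
    rfl

variable [IsAlgClosed Ω]

/-- The law of the Jordan blocks. -/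
theorem law (hH : IsFTheory P H) {X : PVar.{u} k} (hX : P X) :
    ((∀ m, (H X).Semisimple m) ↔ (H X).blocks = (H X).betti) ∧
    ((∀ m, (H X).Semisimple m) ↔ (H X).moment = 0) ∧
    (∀ n, (H (X.pow n)).betti = (H X).betti ^ (n + 1)) ∧
    ((∀ m, (H X).Semisimple m) → ∀ n, (H (X.pow n)).blocks = (H (X.pow n)).betti) ∧
    (¬ (∀ m, (H X).Semisimple m) → 2 ≤ (H X).betti ∧ 0 < (H X).moment ∧
      (∀ n : ℕ, 2 * ((n : ℝ) + 2) * ((H (X.pow n)).blocks : ℝ) ^ 2 ≤
        (H X).betti * ((H (X.pow n)).betti : ℝ) ^ 2) ∧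
      Tendsto (fun n : ℕ => √((n : ℝ) + 1) *
        ((H (X.pow n)).blocks / (H (X.pow n)).betti : ℝ)) atTop
        (𝓝 (√(2 * (H X).betti / (Real.pi * (H X).moment))))) := by
  classical
  have hR := hH.coh X hX
  have := hR.finite
  obtain ⟨S, N, T, hJ, hA⟩ := exists_data hR
  have hss := semisimple_iff_zero hR hJ
  have hb := hA.betti_eq
  have hpow := fun n => jadp_pow hH hX hA n
  have hbn : ∀ n, (H (X.pow n)).betti = (H X).betti ^ (n + 1) := by
    intro n
    rw [(hpow n).betti_eq, Fintype.card_fun, Fintype.card_fin, hb]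
  have hmom := moment_eq hR T hJ
  have hzero : N = 0 ↔ (H X).moment = 0 := by
    constructor
    · intro h0
      unfold FCoh.moment
      refine finsum_eq_zero_of_forall_eq_zero fun k => ?_
      rcases Nat.eq_zero_or_pos k with hk | hk
      · rw [hk]
        simp
      · rw [kerDim_eq hJ k, h0, zero_pow hk.ne', LinearMap.ker_zero, finrank_top]
        unfold FCoh.betti
        ring
    · intro h0
      by_contra hN
      have := sum_pos T hN
      rw [← hmom] at this
      omega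
  refine ⟨?_, hss.trans hzero, hbn, ?_, ?_⟩
  · rw [hss, blocks_eq_ker hJ]
    unfold FCoh.betti
    constructor
    · intro h0
      rw [h0, LinearMap.ker_zero, finrank_top]
    · intro h0
      rw [← LinearMap.ker_eq_top]
      exact Submodule.eq_top_of_finrank_eq h0
  · intro h n
    rw [hss] at h
    have hct : ∀ p, T.ct p = 0 := by
      intro p
      by_contra hp
      have h1 := hmom
      rw [(hzero.1 h)] at h1
      have h2 : T.ct p ^ 2 ≤ ∑ p, T.ct p ^ 2 := Finset.single_le_sum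
        (f := fun k => T.ct k ^ 2) (fun k _ => sq_nonneg _) (Finset.mem_univ p)
      have h3 : 0 < T.ct p ^ 2 := by positivity
      omega
    rw [(hpow n).blocks_eq, (hpow n).betti_eq, ← Nat.card_eq_fintype_card]
    exact Nat.card_congr (Equiv.subtypeUnivEquiv
      (fun g => Or.inl (Finset.sum_eq_zero fun k _ => hct (g k))))
  · intro h
    rw [hss] at h
    obtain ⟨p, p', hpp⟩ := exists_two T h
    have hne : p ≠ p' := fun h1 => by
      rw [h1] at hpp
      omega
    have hpos : 0 < (H X).moment := by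
      rw [hmom]
      exact sum_pos T h
    refine ⟨?_, hpos, ?_, ?_⟩
    · rw [hb]
      exact Fintype.one_lt_card_iff.2 ⟨p, p', hne⟩
    · intro n
      have h1 := count_le' hne (fun g : Fin (n + 1) → T.P =>
        ∑ k, T.ct (g k) = 0 ∨ ∑ k, T.ct (g k) = 1) (fun g R R' => det_reset T.ct hpp g R R')
      rw [(hpow n).blocks_eq, (hpow n).betti_eq, hb, Nat.card_eq_fintype_card,
        Fintype.card_subtype, Fintype.card_fun, Fintype.card_fin]
      push_cast at h1 ⊢
      have h3 : (n : ℝ) + 1 + 1 = n + 2 := by ring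
      rw [h3] at h1
      exact h1
    · have h1 := lim_count T.ct (ct_symm T) ⟨p, p', hpp⟩
      have h2 := (tendsto_add_atTop_iff_nat 1).2 h1
      have h3 : ((H X).moment : ℝ) = ∑ p, (T.ct p : ℝ) ^ 2 := by
        rw [hmom]
        push_cast
        rfl
      rw [h3, hb]
      refine h2.congr fun n => ?_
      rw [(hpow n).blocks_eq, (hpow n).betti_eq, Fintype.card_fun, Fintype.card_fin]
      push_cast
      rfl

/-- If the share of the eigenvectors does not decrease too fast, Frobenius is semisimple. -/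
theorem share (hH : IsFTheory P H) (f : ℕ → ℝ)
    (hf : Tendsto (fun y : ℕ => f y * √(Real.log y)) atTop atTop)
    (h : ∀ X, P X → f (H X).betti * (H X).betti ≤ (H X).blocks)
    (X : PVar.{u} k) (hX : P X) : ∀ m, (H X).Semisimple m := by
  by_contra hcon
  obtain ⟨-, -, hbn, -, hns⟩ := law hH hX
  obtain ⟨hb2, -, hrate, -⟩ := hns hcon
  set b : ℕ := (H X).betti with hb
  have h1 : Tendsto (fun n : ℕ => b ^ (n + 1)) atTop atTop :=
    (_root_.tendsto_pow_atTop_atTop_of_one_lt (by omega : 1 < b)).comp (tendsto_add_atTop_nat 1)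
  have h2 := (hf.comp h1).eventually_gt_atTop (√((b : ℝ) * Real.log b))
  obtain ⟨n, hn⟩ := h2.exists
  simp only [Function.comp_apply] at hn
  have hlogb : 0 < Real.log b := Real.log_pos (by exact_mod_cast (by omega : 1 < b))
  have hbR : (0 : ℝ) < b := by exact_mod_cast (by omega : 0 < b)
  have h3 := hrate n
  have h4 := h (X.pow n) (pow_mem hH hX n)
  rw [hbn n] at h3 h4
  set r : ℝ := ((H (X.pow n)).blocks : ℝ) with hr
  set B : ℝ := (b : ℝ) ^ (n + 1) with hB
  have hBpos : 0 < B := by positivity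
  have hcast : ((b ^ (n + 1) : ℕ) : ℝ) = B := by push_cast; rfl
  rw [hcast] at h3 h4
  have hlog : Real.log ((b ^ (n + 1) : ℕ) : ℝ) = (n + 1) * Real.log b := by
    push_cast
    rw [Real.log_pow]
    push_cast
    ring
  rw [hlog] at hn
  have hs1 : 0 ≤ √((b : ℝ) * Real.log b) := Real.sqrt_nonneg _
  have hs2 : 0 ≤ √(((n : ℝ) + 1) * Real.log b) := Real.sqrt_nonneg _
  have hfpos : 0 < f (b ^ (n + 1)) := by
    by_contra h6
    push Not at h6
    have h7 : f (b ^ (n + 1)) * √(((n : ℝ) + 1) * Real.log b) ≤ 0 :=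
      mul_nonpos_of_nonpos_of_nonneg h6 hs2
    linarith
  have h8 : (b : ℝ) * Real.log b < f (b ^ (n + 1)) ^ 2 * (((n : ℝ) + 1) * Real.log b) := by
    have h9 := pow_lt_pow_left₀ hn hs1 (n := 2) (by norm_num)
    rw [Real.sq_sqrt (by positivity), mul_pow, Real.sq_sqrt (by positivity)] at h9
    exact h9
  have h10 : (f (b ^ (n + 1)) * B) ^ 2 ≤ r ^ 2 := pow_le_pow_left₀ (by positivity) h4 2
  have h11 : 2 * ((n : ℝ) + 2) * (f (b ^ (n + 1)) * B) ^ 2 ≤ b * B ^ 2 :=
    (mul_le_mul_of_nonneg_left h10 (by positivity)).trans h3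
  have h12 : 2 * ((n : ℝ) + 2) * f (b ^ (n + 1)) ^ 2 ≤ b := by
    have h13 : 2 * ((n : ℝ) + 2) * f (b ^ (n + 1)) ^ 2 * B ^ 2 ≤ b * B ^ 2 := by
      refine le_trans (le_of_eq ?_) h11
      ring
    exact le_of_mul_le_mul_right h13 (by positivity)
  have h14 : (b : ℝ) < f (b ^ (n + 1)) ^ 2 * ((n : ℝ) + 1) := by
    have h15 : (b : ℝ) * Real.log b < f (b ^ (n + 1)) ^ 2 * ((n : ℝ) + 1) * Real.log b := by
      linarith
    exact lt_of_mul_lt_mul_right h15 hlogb.le
  have h16 : 0 ≤ f (b ^ (n + 1)) ^ 2 := sq_nonneg _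
  have h17 : 0 ≤ f (b ^ (n + 1)) ^ 2 * (n : ℝ) := by positivity
  nlinarith

end

end Pool.Agent.N536.FS
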