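import Pool.Agent.N536.FS.Jordan
import Pool.Agent.Y664.MW.B2
import Pool.Agent.Y163.MW.Gen

/-!
# Strings of a nilpotent operator which respects a decomposition
-/

set_option autoImplicit false
set_option linter.unusedSectionVars false

open Module

namespace Pool.Agent.N536.FS

open Pool.Agent.Y163.MW

universe u v w

section

variable {K : Type u} [Field K] {V : Type v} [AddCommGroup V] [Module K V]

/-- A nilpotent operator which respects a decomposition has a basis of strings each of which is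
contained in one of the parts. -/
theorem exists_typed [Module.Finite K V] {C : Type w} {W : C → Submodule K V}
    (hW : iSupIndep W) (hT : ⨆ c, W c = ⊤) (N : Module.End K V)
    (hN : ∀ c, ∀ x ∈ W c, N x ∈ W c) (nil : IsNilpotent N) :
    ∃ (S : Strings (fun _ => (⊤ : Submodule K V)) N) (ty : S.ι → C),
      ∀ s i, S.b ⟨s, i⟩ ∈ W (ty s) := by
  classical
  have hfin : Finite {c | W c ≠ ⊥} := (WellFoundedGT.finite_ne_bot_of_iSupIndep hW).to_subtype
  obtain ⟨k, ⟨φ⟩⟩ := hfin.exists_equiv_fin
  let W' : Fin k → Submodule K V := fun j => W (φ.symm j)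
  have hinj : Function.Injective fun j : Fin k => ((φ.symm j : {c | W c ≠ ⊥}) : C) :=
    Subtype.val_injective.comp φ.symm.injective
  have hW' : iSupIndep W' := hW.comp hinj
  have hT' : ⨆ j, W' j = ⊤ := by
    rw [eq_top_iff, ← hT]
    refine iSup_le fun c => ?_
    by_cases hc : W c = ⊥
    · rw [hc]
      exact bot_le
    · refine le_iSup_of_le (φ ⟨c, hc⟩) (le_of_eq ?_)
      show W c = W (φ.symm (φ ⟨c, hc⟩))
      rw [φ.symm_apply_apply]
  have hInt := DirectSum.isInternal_submodule_of_iSupIndep_of_iSup_eq_top hW' hT'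
  have hN' : ∀ j, ∀ x ∈ W' j, N x ∈ W' j := fun j => hN _
  have hnil' : ∀ j, IsNilpotent (N.restrict (hN' j)) := by
    intro j
    obtain ⟨m, hm⟩ := nil
    refine ⟨m, ?_⟩
    apply LinearMap.ext
    intro y
    apply Subtype.ext
    rw [Module.End.pow_restrict, LinearMap.restrict_apply]
    simp [hm]
  have hstr : ∀ j, Nonempty (Strings (fun _ => (⊤ : Submodule K (W' j))) (N.restrict (hN' j))) :=
    fun j => exists_jordan _ _ _ (hnil' j) rfl
  let T := fun j => Classical.choice (hstr j)
  let b0 := hInt.collectedBasis fun j => (T j).b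
  have hb0 : ∀ j s i, b0 ⟨j, ⟨s, i⟩⟩ = ((T j).b ⟨s, i⟩ : V) := by
    intro j s i
    have := congrFun (hInt.collectedBasis_coe fun j => (T j).b) ⟨j, ⟨s, i⟩⟩
    exact this
  let E : (Σ p : Σ j : Fin k, (T j).ι, Fin ((T p.1).len p.2 + 1)) ≃
      Σ j : Fin k, Σ s : (T j).ι, Fin ((T j).len s + 1) :=
    Equiv.sigmaAssoc fun (j : Fin k) (s : (T j).ι) => Fin ((T j).len s + 1)
  have hb : ∀ j s i, (b0.reindex E.symm) ⟨⟨j, s⟩, i⟩ = ((T j).b ⟨s, i⟩ : V) := by
    intro j s i
    rw [Basis.reindex_apply, Equiv.symm_symm]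
    exact hb0 j s i
  refine ⟨{ ι := Σ j : Fin k, (T j).ι
            fintype := inferInstance
            len := fun p => (T p.1).len p.2
            top := fun _ => 0
            b := b0.reindex E.symm
            mem := fun _ _ => Submodule.mem_top
            succ := ?_
            last := ?_ }, fun p => (φ.symm p.1 : C), ?_⟩
  · rintro ⟨j, s⟩ i
    rw [hb, hb, ← (T j).succ s i]
    rfl
  · rintro ⟨j, s⟩
    rw [hb]
    have h := congrArg Subtype.val ((T j).last s)
    exact h
  · rintro ⟨j, s⟩ i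
    show (b0.reindex E.symm) ⟨⟨j, s⟩, i⟩ ∈ W' j
    rw [hb]
    exact ((T j).b ⟨s, i⟩).2

/-- The value of `N` on a vector of the basis. -/
theorem N_mem {gr : ℤ → Submodule K V} {N : Module.End K V} (S : Strings gr N)
    (p : Σ s : S.ι, Fin (S.len s + 1)) :
    N (S.b p) ∈ Submodule.span K (S.b '' {p' | p'.1 = p.1 ∧ S.ct p' = S.ct p - 2}) := by
  obtain ⟨s, i⟩ := p
  rcases Nat.lt_or_ge (i : ℕ) (S.len s) with h | h
  · have h1 : i = (⟨i, h⟩ : Fin (S.len s)).castSucc := rfl
    rw [h1, S.succ]
    refine Submodule.subset_span ⟨⟨s, (⟨i, h⟩ : Fin (S.len s)).succ⟩, ⟨rfl, ?_⟩, rfl⟩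
    unfold Strings.ct
    simp only [Fin.val_succ, Fin.val_castSucc]
    push_cast
    ring
  · have h1 : i = Fin.last (S.len s) := Fin.ext (by
      have := i.2
      rw [Fin.val_last]
      omega)
    rw [h1, S.last]
    exact Submodule.zero_mem _

end

end Pool.Agent.N536.FS
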