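import Pool.Agent.N536.FS.Law
import Pool.Agent.N536.FS.Typed

/-!
# The kernel of the lowering operator on a part of the space
-/

set_option autoImplicit false
set_option linter.unusedSectionVars false

open Module TensorProduct

namespace Pool.Agent.N536.FS

universe u v w

open Pool.Agent.Y163.MW

section

variable {K : Type u} [Field K] [CharZero K] {V : Type v} [AddCommGroup V] [Module K V]

/-- If the lowering operator respects the decomposition of the basis in two parts, then the
dimension of its kernel on the first part is at most the number of the members of this part of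
weight `0` and `1`. -/
theorem part_count {I : Type} [Fintype I] {N : Module.End K V} {b : Basis I K V} {a : I → ℤ}
    {e h : Module.End K V} (hs : IsSl2 N b a e h) (G : I → Prop)
    (hN : ∀ i, N (b i) ∈ Submodule.span K (b '' {j | (G j ↔ G i) ∧ a j = a i - 2})) :
    finrank K (Submodule.span K (b '' {i | G i}) ⊓ LinearMap.ker N : Submodule K V) ≤
      Nat.card {i // G i ∧ (a i = 0 ∨ a i = 1)} := by
  classical
  have := Module.Finite.of_basis b
  set U1 := Submodule.span K (b '' {i | ¬ G i ∧ a i ≤ 1}) with hU1
  set U2 := Submodule.span K (b '' {i | ¬ G i ∧ a i ≤ -1}) with hU2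
  set K1 := Submodule.span K (b '' {i | G i}) ⊓ LinearMap.ker N with hK1
  have hmap : U1.map N ≤ U2 := by
    rw [hU1, Submodule.map_span, Submodule.span_le]
    rintro _ ⟨_, ⟨i, ⟨hi1, hi2⟩, rfl⟩, rfl⟩
    refine Submodule.span_mono (Set.image_mono ?_) (hN i)
    rintro j ⟨hj1, hj2⟩
    exact ⟨fun hj => hi1 (hj1.1 hj), by omega⟩
  have hker : finrank K U1 ≤ finrank K U2 + finrank K (U1 ⊓ LinearMap.ker N : Submodule K V) := by
    have h1 := LinearMap.finrank_range_add_finrank_ker (N.domRestrict U1)
    have h2 : LinearMap.range (N.domRestrict U1) = U1.map N := by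
      rw [LinearMap.domRestrict, LinearMap.range_comp, Submodule.range_subtype]
    have h3 : finrank K (LinearMap.ker (N.domRestrict U1)) =
        finrank K (U1 ⊓ LinearMap.ker N : Submodule K V) := by
      rw [LinearMap.ker_domRestrict, inf_comm, ← Submodule.finrank_map_subtype_eq,
        Submodule.map_comap_subtype, inf_comm]
    rw [h2, h3] at h1
    have h4 := Submodule.finrank_mono hmap
    omega
  have hdis : Disjoint K1 (U1 ⊓ LinearMap.ker N) := by
    rw [Submodule.disjoint_def]
    intro x hx1 hx2
    have h1 : x ∈ Submodule.span K (b '' {i | G i}) ⊓ U1 :=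
      ⟨(Submodule.mem_inf.1 hx1).1, (Submodule.mem_inf.1 hx2).1⟩
    rw [hU1, span_image_inf] at h1
    have h2 : ({i | G i} ∩ {i | ¬ G i ∧ a i ≤ 1} : Set I) = ∅ := by
      ext i
      simp only [Set.mem_inter_iff, Set.mem_setOf_eq, Set.mem_empty_iff_false, iff_false]
      tauto
    rw [h2, Set.image_empty, Submodule.span_empty] at h1
    exact (Submodule.mem_bot K).1 h1
  have hsum := Submodule.finrank_add_finrank_le_of_disjoint hdis
  have hsup : finrank K K1 + finrank K (U1 ⊓ LinearMap.ker N : Submodule K V) ≤
      finrank K (LinearMap.ker N) := by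
    rw [← Submodule.finrank_sup_add_finrank_inf_eq, hdis.eq_bot, finrank_bot, add_zero]
    exact Submodule.finrank_mono (sup_le inf_le_right inf_le_right)
  have hb1 := Pool.Agent.N536.MW.b1 K V N I b a e h hs
  have c1 : finrank K U1 = Nat.card {i // ¬ G i ∧ a i ≤ 1} := finrank_span_image b _
  have c2 : finrank K U2 = Nat.card {i // ¬ G i ∧ a i ≤ -1} := finrank_span_image b _
  rw [hb1] at hsup
  rw [c1, c2] at hker
  have d1 : Nat.card {i // ¬ G i ∧ a i ≤ 1} = Nat.card {i // ¬ G i ∧ a i ≤ -1} +
      Nat.card {i // ¬ G i ∧ (a i = 0 ∨ a i = 1)} := by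
    rw [Nat.card_eq_fintype_card, Nat.card_eq_fintype_card, Nat.card_eq_fintype_card,
      Fintype.card_subtype, Fintype.card_subtype, Fintype.card_subtype,
      ← Finset.card_union_of_disjoint]
    · congr 1
      ext i
      simp only [Finset.mem_filter, Finset.mem_univ, true_and, Finset.mem_union]
      constructor
      · rintro ⟨h1, h2⟩
        by_cases h3 : a i ≤ -1
        · exact Or.inl ⟨h1, h3⟩
        · exact Or.inr ⟨h1, by omega⟩
      · rintro (⟨h1, h2⟩ | ⟨h1, h2⟩)
        · exact ⟨h1, by omega⟩
        · exact ⟨h1, by omega⟩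
    · rw [Finset.disjoint_filter]
      rintro i _ ⟨_, h5⟩ ⟨_, h6⟩
      omega
  have d2 : Nat.card {i // a i = 0 ∨ a i = 1} = Nat.card {i // G i ∧ (a i = 0 ∨ a i = 1)} +
      Nat.card {i // ¬ G i ∧ (a i = 0 ∨ a i = 1)} := by
    rw [Nat.card_eq_fintype_card, Nat.card_eq_fintype_card, Nat.card_eq_fintype_card,
      Fintype.card_subtype, Fintype.card_subtype, Fintype.card_subtype,
      ← Finset.card_union_of_disjoint]
    · congr 1
      ext i
      simp only [Finset.mem_filter, Finset.mem_univ, true_and, Finset.mem_union]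
      tauto
    · rw [Finset.disjoint_filter]
      rintro i _ ⟨h5, _⟩ ⟨h6, _⟩
      exact h6 h5
  omega

end

section

variable {Ω : Type w} [Field Ω] [CharZero Ω] {V : Type v} [AddCommGroup V] [Module Ω V]
  {F S N : Module.End Ω V}

/-- The generalized eigenspaces of `F` are contained in the eigenspaces of `S`. -/
theorem IsMJ.gen_le [Module.Finite Ω V] (h : IsMJ F S N) (α : Ω) :
    F.maxGenEigenspace α ≤ S.eigenspace α := by
  have key : ∀ k : ℕ, F.genEigenspace α k ≤ S.eigenspace α := by
    intro k
    have h1 : ∀ x ∈ F.genEigenspace α k, S x ∈ F.genEigenspace α k := fun x hx =>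
      Module.End.mapsTo_genEigenspace_of_comm h.commute.1 α k hx
    have h2 := Submodule.inf_iSup_genEigenspace h1 1
    have h3 : (⨆ μ, S.genEigenspace μ 1) = ⊤ := h.semi
    rw [h3, inf_top_eq] at h2
    rw [h2]
    refine iSup_le fun β => ?_
    rintro y ⟨hy1, hy2⟩
    have hy3 : S y = β • y := Module.End.mem_genEigenspace_one.1 hy2
    obtain ⟨m, hm⟩ := h.nil
    by_cases hβ : β = α
    · rw [← hβ]
      exact Module.End.mem_eigenspace_iff.2 hy3
    · have h4 : y ∈ F.genEigenspace β m := (h.mem_iff hy3 m).2 (by
        rw [LinearMap.mem_ker, hm, LinearMap.zero_apply])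
      have h5 := Module.End.disjoint_genEigenspace F hβ m k
      have h6 : y = 0 := by
        have := h5.le_bot ⟨h4, hy1⟩
        simpa using this
      rw [h6]
      exact Submodule.zero_mem _
  intro x hx
  obtain ⟨k, hk⟩ := (Module.End.mem_maxGenEigenspace F α x).1 hx
  exact key k (Module.End.mem_genEigenspace_nat.2 hk)

theorem IsMJ.le_gen (h : IsMJ F S N) (α : Ω) : S.eigenspace α ≤ F.maxGenEigenspace α := by
  intro x hx
  obtain ⟨m, hm⟩ := h.nil
  have h1 : x ∈ F.genEigenspace α m := (h.mem_iff (Module.End.mem_eigenspace_iff.1 hx) m).2 (by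
    rw [LinearMap.mem_ker, hm, LinearMap.zero_apply])
  exact (Module.End.mem_maxGenEigenspace F α x).2 ⟨m, Module.End.mem_genEigenspace_nat.1 h1⟩

/-- An operator which commutes with all the operators which commute with `F` respects the
decompositions which `F` respects. -/
theorem stable_of_commute {J : Type*} {gr : J → Submodule Ω V} (h1 : iSupIndep gr)
    (h2 : ⨆ j, gr j = ⊤) (hF : ∀ j, ∀ x ∈ gr j, F x ∈ gr j)
    (hN : ∀ Z, Commute Z F → Commute Z N) (j : J) : ∀ x ∈ gr j, N x ∈ gr j := by
  classical
  set q : Submodule Ω V := ⨆ (i) (_ : i ≠ j), gr i with hq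
  have hpq : IsCompl (gr j) q := by
    refine ⟨iSupIndep_def.1 h1 j, ?_⟩
    rw [codisjoint_iff_le_sup, ← h2]
    refine iSup_le fun i => ?_
    by_cases hi : i = j
    · rw [hi]
      exact le_sup_left
    · exact le_sup_of_le_right (le_iSup₂_of_le i hi le_rfl)
  have hFq : ∀ x ∈ q, F x ∈ q := by
    intro x hx
    have : q ≤ q.comap F := by
      refine iSup₂_le fun i hi y hy => ?_
      exact Submodule.mem_iSup_of_mem i (Submodule.mem_iSup_of_mem hi (hF i y hy))
    exact this hx
  set Z : Module.End Ω V := (gr j).projection q hpq with hZ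
  have hcomm : Commute Z F := by
    refine LinearMap.ext fun x => ?_
    obtain ⟨y, hy, z, hz, rfl⟩ := Submodule.mem_sup.1 (by
      rw [hpq.sup_eq_top]
      exact Submodule.mem_top : x ∈ gr j ⊔ q)
    rw [Module.End.mul_apply, Module.End.mul_apply, map_add, map_add, map_add,
      hZ, Submodule.projection_apply_of_mem_left hpq (hF j y hy),
      Submodule.projection_apply_of_mem_right hpq (hFq z hz),
      Submodule.projection_apply_of_mem_left hpq hy,
      Submodule.projection_apply_of_mem_right hpq hz, add_zero, add_zero]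
  have h3 := hN Z hcomm
  intro x hx
  have h4 := LinearMap.congr_fun h3.eq x
  rw [Module.End.mul_apply, Module.End.mul_apply, hZ,
    Submodule.projection_apply_of_mem_left hpq hx] at h4
  rw [← h4]
  exact Submodule.projection_apply_mem hpq _

end

end Pool.Agent.N536.FS
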