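import Pool.Agent.N536.FS.Defs

/-!
# Tate classes and generalised Tate classes
-/

set_option autoImplicit false

open Module AlgebraicGeometry CategoryTheory CategoryTheory.Limits TensorProduct

namespace Pool.Agent.N536.FS

universe u v w

/-- A variety over `k`: a separated scheme of finite type (it need be neither smooth, nor proper, nor
irreducible). -/
structure SVar (k : Type u) [Field k] where
  /-- the scheme -/
  X : Scheme.{u}
  /-- the structure morphism -/
  str : X ⟶ Spec (.of k)
  separated : IsSeparated str
  locallyOfFiniteType : LocallyOfFiniteType str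
  quasiCompact : QuasiCompact str

attribute [instance] SVar.separated SVar.locallyOfFiniteType SVar.quasiCompact

/-- The product `X × Y`. -/
noncomputable def SVar.prod {k : Type u} [Field k] (X Y : SVar.{u} k) : SVar.{u} k where
  X := pullback X.str Y.str
  str := pullback.fst X.str Y.str ≫ X.str
  separated := inferInstance
  locallyOfFiniteType := inferInstance
  quasiCompact := inferInstance

/-- The powers `X^(n + 1)` with respect to a product operation. -/
def powK {𝒱 : Type u} (prod : 𝒱 → 𝒱 → 𝒱) (X : 𝒱) : ℕ → 𝒱
  | 0 => X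
  | n + 1 => prod X (powK prod X n)

/-- The theory `H` has the known properties on the class `P`, which is closed under products. -/
structure IsKTheory {𝒱 : Type u} (prod : 𝒱 → 𝒱 → 𝒱) {Ω : Type w} [Field Ω] (P : 𝒱 → Prop)
    (H : 𝒱 → FCoh.{v, w} Ω) : Prop where
  prod_mem : ∀ X Y, P X → P Y → P (prod X Y)
  coh : ∀ X, P X → (H X).IsFCoh
  kunneth : ∀ X Y, P X → P Y → ∃ κ, IsFKunneth (H X) (H Y) (H (prod X Y)) κ

namespace FCoh

variable {Ω : Type w} [Field Ω] (R : FCoh.{v, w} Ω) (q : ℕ)

/-- The space of the Tate classes: the sum over `j` of the eigenspaces of `F` on `H^(2 j)` for the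
eigenvalue `q ^ j`. -/
def tateClasses : Submodule Ω R.V := ⨆ j : ℕ, R.gr (2 * j) ⊓ R.F.eigenspace ((q : Ω) ^ j)

/-- The space of the generalised Tate classes: the sum over `j` of the generalised eigenspaces of
`F` on `H^(2 j)` for the eigenvalue `q ^ j`. -/
def genTateClasses : Submodule Ω R.V := ⨆ j : ℕ, R.gr (2 * j) ⊓ R.F.maxGenEigenspace ((q : Ω) ^ j)

/-- The number of the Tate classes. -/
noncomputable def tateDim : ℕ := finrank Ω (R.tateClasses q)

/-- The number of the generalised Tate classes: the sum of the multiplicities of the eigenvalues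
`q ^ j` on `H^(2 j)`. -/
noncomputable def genTateDim : ℕ := finrank Ω (R.genTateClasses q)

/-- The eigenvalue `q ^ j` of `F` on `H^(2 j)` is semisimple. -/
def SemisimpleAt (j : ℕ) : Prop :=
  R.gr (2 * j) ⊓ R.F.maxGenEigenspace ((q : Ω) ^ j) = R.gr (2 * j) ⊓ R.F.eigenspace ((q : Ω) ^ j)

end FCoh

end Pool.Agent.N536.FS
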