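import Pool.Agent.N536.FS.Tate

/-!
# The zero–one law for Tate classes: assembly
-/

set_option autoImplicit false

open Module Filter Topology

namespace Pool.Agent.N536.FS

universe u v w

variable {𝒱 : Type u} {prod : 𝒱 → 𝒱 → 𝒱} {Ω : Type w} [Field Ω] [CharZero Ω] [IsAlgClosed Ω]
  {P : 𝒱 → Prop} {H : 𝒱 → FCoh.{v, w} Ω}

/-- The zero–one law for Tate classes. -/
theorem tate_law (hH : IsKTheory prod P H) {q : ℕ} (hq : q ≠ 0) :
    (∀ X, P X →
      ((∀ j, (H X).SemisimpleAt q j) ↔ (H X).tateDim q = (H X).genTateDim q) ∧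
      (¬ (∀ j, (H X).SemisimpleAt q j) → (∀ n, 0 < (H (powK prod X n)).genTateDim q) ∧
        Tendsto (fun n : ℕ => ((H (powK prod X n)).tateDim q : ℝ) /
          (H (powK prod X n)).genTateDim q) atTop (𝓝 0))) ∧
    ∀ ε : ℝ, 0 < ε →
      (∀ X, P X → ε * (H X).genTateDim q ≤ (H X).tateDim q) →
      ∀ X, P X → ∀ j, (H X).SemisimpleAt q j := by
  refine ⟨fun X hX => ⟨(tate_iff q (hH.coh X hX)).2, fun h => tate_zero hH hX hq h⟩, ?_⟩
  intro ε hε h X hX
  by_contra hcon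
  obtain ⟨h1, h2⟩ := tate_zero hH hX hq hcon
  obtain ⟨n, hn⟩ := (h2.eventually_lt_const hε).exists
  have h3 := h (powK prod X n) (powK_mem hH hX n)
  have h4 : (0 : ℝ) < (H (powK prod X n)).genTateDim q := by exact_mod_cast h1 n
  rw [div_lt_iff₀ h4] at hn
  linarith

end Pool.Agent.N536.FS
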