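import Pool.Agent.N536.FS.Count

/-!
# Zero-sum sequences and anticoncentration
-/

set_option autoImplicit false
set_option linter.unusedSectionVars false

open Finset Filter Topology

namespace Pool.Agent.N536.FS

open Pool.Agent.N536.MW

section

variable {I : Type} [Fintype I] [DecidableEq I] {Γ : Type*} [AddCommGroup Γ] [DecidableEq Γ]

/-- The number of the places in `K` with the value `i`. -/
def cnt {n : ℕ} (K : Finset (Fin n)) (g : Fin n → I) : I → ℕ := fun i =>
  (K.filter fun k => g k = i).card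

theorem sum_cnt {n : ℕ} (K : Finset (Fin n)) (g : Fin n → I) : ∑ i, cnt K g i = K.card := by
  rw [card_eq_sum_card_fiberwise (f := g) (t := univ) (fun k _ => mem_coe.2 (mem_univ _))]
  rfl

theorem sum_w {n : ℕ} (w : I → Γ) (K : Finset (Fin n)) (g : Fin n → I) :
    ∑ k ∈ K, w (g k) = ∑ i, cnt K g i • w i := by
  rw [← sum_fiberwise_of_maps_to (s := K) (t := univ) (g := g) (fun k _ => mem_univ _)]
  refine sum_congr rfl fun i _ => ?_
  rw [sum_congr rfl fun k hk => by rw [(mem_filter.1 hk).2], sum_const]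
  rfl

theorem exists_sub {n : ℕ} (K : Finset (Fin n)) (g : Fin n → I) (c : I → ℕ)
    (hc : ∀ i, c i ≤ cnt K g i) : ∃ S ⊆ K, cnt S g = c := by
  have h1 : ∀ i, ∃ S ⊆ K.filter fun k => g k = i, S.card = c i := fun i =>
    exists_subset_card_eq (hc i)
  choose S hS hSc using h1
  refine ⟨univ.biUnion S, ?_, ?_⟩
  · rw [biUnion_subset]
    exact fun i _ => (hS i).trans (filter_subset _ _)
  · funext i
    rw [← hSc i]
    unfold cnt
    congr 1
    ext k
    rw [mem_filter, mem_biUnion]
    constructor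
    · rintro ⟨⟨j, -, hj⟩, hk⟩
      have := (mem_filter.1 (hS j hj)).2
      rw [← hk, this]
      exact hj
    · intro hk
      exact ⟨⟨i, mem_univ _, hk⟩, (mem_filter.1 (hS i hk)).2⟩

/-- The zero-sum vectors with nonnegative coordinates are bounded below by short ones (the lemma of
Dickson). -/
theorem exists_bound (w : I → Γ) : ∃ L : ℕ, ∀ c : I → ℕ, c ≠ 0 → ∑ i, c i • w i = 0 →
    ∃ c' : I → ℕ, c' ≤ c ∧ c' ≠ 0 ∧ ∑ i, c' i • w i = 0 ∧ ∑ i, c' i ≤ L := by
  by_contra hcon
  push Not at hcon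
  choose c hc0 hcw hc using hcon
  let l : ℕ → ℕ := fun j => Nat.rec 0 (fun _ x => x + ∑ i, c x i) j
  have hl : ∀ j, l (j + 1) = l j + ∑ i, c (l j) i := fun j => rfl
  have hmono : Monotone l := monotone_nat_of_le_succ fun j => by
    rw [hl]
    exact Nat.le_add_right _ _
  obtain ⟨i, j, hij, hle⟩ := wellQuasiOrdered_le (fun j => c (l j))
  have h1 := hc (l j) (c (l i)) hle (hc0 _) (hcw _)
  have h2 := hmono (Nat.succ_le_of_lt hij)
  rw [hl] at h2
  omega

theorem exists_short (w : I → Γ) : ∃ L : ℕ, 0 < L ∧ ∀ (n : ℕ) (K : Finset (Fin n))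
    (g : Fin n → I), K.Nonempty → ∑ k ∈ K, w (g k) = 0 →
    ∃ S ⊆ K, S.Nonempty ∧ S.card ≤ L ∧ ∑ k ∈ S, w (g k) = 0 := by
  obtain ⟨L, hL⟩ := exists_bound w
  refine ⟨L + 1, by omega, fun n K g hK h0 => ?_⟩
  obtain ⟨c', h1, h2, h3, h4⟩ := hL (cnt K g) (by
    intro h
    have h5 := sum_cnt K g
    rw [h] at h5
    simp only [Pi.zero_apply, sum_const_zero] at h5
    exact hK.card_pos.ne h5) (by rw [← sum_w]; exact h0)
  obtain ⟨S, hS, hSc⟩ := exists_sub K g c' h1
  refine ⟨S, hS, ?_, ?_, ?_⟩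
  · rw [nonempty_iff_ne_empty]
    intro h
    apply h2
    rw [← hSc, h]
    rfl
  · rw [← sum_cnt S g, hSc]
    omega
  · rw [sum_w, hSc]
    exact h3

/-- There are many short zero-sum subsequences. -/
theorem exists_many (w : I → Γ) {L : ℕ} (hL : 0 < L) (h : ∀ (n : ℕ) (K : Finset (Fin n))
    (g : Fin n → I), K.Nonempty → ∑ k ∈ K, w (g k) = 0 →
    ∃ S ⊆ K, S.Nonempty ∧ S.card ≤ L ∧ ∑ k ∈ S, w (g k) = 0) {n : ℕ} (g : Fin n → I) (N : ℕ) :
    ∀ K : Finset (Fin n), N * L ≤ K.card → ∑ k ∈ K, w (g k) = 0 →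
      ∃ 𝓢 : Finset (Finset (Fin n)), 𝓢.card = N ∧
        ∀ S ∈ 𝓢, S ⊆ K ∧ S.Nonempty ∧ S.card ≤ L ∧ ∑ k ∈ S, w (g k) = 0 := by
  induction N with
  | zero => exact fun K _ _ => ⟨∅, rfl, fun S hS => absurd hS (notMem_empty _)⟩
  | succ N ih =>
    intro K hK h0
    have hKn : K.Nonempty := by
      rw [← card_pos]
      refine lt_of_lt_of_le ?_ hK
      positivity
    obtain ⟨S, hS, hSn, hSL, hS0⟩ := h n K g hKn h0
    obtain ⟨𝓢, h1, h2⟩ := ih (K \ S) (by
      rw [card_sdiff_of_subset hS]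
      have h3 : (N + 1) * L = N * L + L := by ring
      omega) (by
        rw [← sum_sdiff hS, hS0, add_zero] at h0
        exact h0)
    have h4 : S ∉ 𝓢 := by
      intro h5
      obtain ⟨k, hk⟩ := hSn
      exact (mem_sdiff.1 ((h2 S h5).1 hk)).2 hk
    refine ⟨insert S 𝓢, ?_, ?_⟩
    · rw [card_insert_of_notMem h4, h1]
    · intro S' hS'
      rcases mem_insert.1 hS' with h5 | h5
      · rw [h5]
        exact ⟨hS, hSn, hSL, hS0⟩
      · exact ⟨(h2 S' h5).1.trans sdiff_subset, (h2 S' h5).2⟩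

/-- The value `p` is put at the places in `S`. -/
def put {n : ℕ} (p : I) (S : Finset (Fin n)) (g : Fin n → I) : Fin n → I := fun k =>
  if k ∈ S then p else g k

theorem fiber_card {n : ℕ} (p : I) (S : Finset (Fin n)) (h : Fin n → I) :
    (univ.filter fun g : Fin n → I => put p S g = h).card ≤ Fintype.card I ^ S.card := by
  have h1 : (univ.filter fun g : Fin n → I => put p S g = h) ⊆
      Fintype.piFinset fun k => if k ∈ S then (univ : Finset I) else {h k} := by
    intro g hg
    rw [Fintype.mem_piFinset]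
    intro k
    by_cases hk : k ∈ S
    · rw [if_pos hk]
      exact mem_univ _
    · rw [if_neg hk, mem_singleton, ← (mem_filter.1 hg).2]
      unfold put
      rw [if_neg hk]
  refine (card_le_card h1).trans (le_of_eq ?_)
  rw [Fintype.card_piFinset, ← prod_sdiff (subset_univ S)]
  have h2 : ∏ k ∈ univ \ S, (if k ∈ S then (univ : Finset I) else {h k}).card = 1 := by
    refine prod_eq_one fun k hk => ?_
    rw [if_neg (mem_sdiff.1 hk).2, card_singleton]
  rw [h2, one_mul, prod_congr rfl fun k hk => by rw [if_pos hk], prod_const, card_univ]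

variable (w : I → Γ) (p p' : I)

/-- The zero-sum families with few places of `p`, `p'` are rare. -/
theorem rare (hp : w p = 0) (hp' : w p' = 0) : ∃ L : ℕ, ∀ (M N n : ℕ), M + N * L ≤ n →
    N * (univ.filter fun g : Fin n → I => ∑ k, w (g k) = 0 ∧ (pl p p' g).card ≤ M).card ≤
      2 ^ (M + L) * Fintype.card I ^ L *
        (univ.filter fun g : Fin n → I => ∑ k, w (g k) = 0).card := by
  classical
  obtain ⟨L, hL, hw⟩ := exists_short w
  refine ⟨L, fun M N n hn => ?_⟩
  have hI : 0 < Fintype.card I := Fintype.card_pos_iff.2 ⟨p⟩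
  set B := univ.filter fun g : Fin n → I => ∑ k, w (g k) = 0 ∧ (pl p p' g).card ≤ M with hB
  set G := univ.filter fun g : Fin n → I => ∑ k, w (g k) = 0 with hG
  -- the sums outside of the places of `p` and `p'`
  have hout : ∀ g ∈ B, ∑ k ∈ (pl p p' g)ᶜ, w (g k) = 0 := by
    intro g hg
    have h1 := (mem_filter.1 hg).2.1
    rw [← sum_compl_add_sum (pl p p' g)] at h1
    have h2 : ∑ k ∈ pl p p' g, w (g k) = 0 := by
      refine sum_eq_zero fun k hk => ?_
      rcases (mem_filter.1 hk).2 with h3 | h3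
      · rw [h3, hp]
      · rw [h3, hp']
    rw [h2, add_zero] at h1
    exact h1
  have hmany : ∀ g ∈ B, ∃ 𝓢 : Finset (Finset (Fin n)), 𝓢.card = N ∧
      ∀ S ∈ 𝓢, S ⊆ (pl p p' g)ᶜ ∧ S.Nonempty ∧ S.card ≤ L ∧ ∑ k ∈ S, w (g k) = 0 := by
    intro g hg
    refine exists_many w hL hw g N _ ?_ (hout g hg)
    rw [card_compl, Fintype.card_fin]
    have := (mem_filter.1 hg).2.2
    omega
  choose! 𝓢 h𝓢c h𝓢 using hmany
  let T : Finset (Σ _ : Fin n → I, Finset (Fin n)) := B.sigma 𝓢
  have hT : T.card = N * B.card := by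
    rw [card_sigma, sum_congr rfl h𝓢c, sum_const, smul_eq_mul, mul_comm]
  let f : (Σ _ : Fin n → I, Finset (Fin n)) → (Fin n → I) := fun x => put p x.2 x.1
  have himg : T.image f ⊆ G := by
    intro h hh
    obtain ⟨⟨g, S⟩, hx, rfl⟩ := mem_image.1 hh
    obtain ⟨hg, hS⟩ := mem_sigma.1 hx
    simp only at hg hS
    obtain ⟨hS1, hS2, hS3, hS4⟩ := h𝓢 g hg S hS
    rw [mem_filter]
    refine ⟨mem_univ _, ?_⟩
    have h1 := (mem_filter.1 hg).2.1
    rw [← sum_compl_add_sum S, hS4, add_zero] at h1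
    rw [← sum_compl_add_sum S]
    have h2 : ∑ k ∈ S, w (f ⟨g, S⟩ k) = 0 := by
      refine sum_eq_zero fun k hk => ?_
      show w (put p S g k) = 0
      unfold put
      rw [if_pos hk, hp]
    have h3 : ∑ k ∈ Sᶜ, w (f ⟨g, S⟩ k) = ∑ k ∈ Sᶜ, w (g k) := by
      refine sum_congr rfl fun k hk => ?_
      show w (put p S g k) = w (g k)
      unfold put
      rw [if_neg (mem_compl.1 hk)]
    rw [h2, h3, h1, add_zero]
  have hfib : ∀ h ∈ T.image f, (T.filter fun x => f x = h).card ≤
      2 ^ (M + L) * Fintype.card I ^ L := by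
    intro h hh
    obtain ⟨⟨g₀, S₀⟩, hx₀, hh₀⟩ := mem_image.1 hh
    -- all the sets are contained in the set of the places of `p` in `h`
    have hsub : ∀ g S, (⟨g, S⟩ : Σ _ : Fin n → I, Finset (Fin n)) ∈ T.filter (fun x => f x = h) →
        S ⊆ pl p p' h ∧ S.card ≤ L ∧ (pl p p' h).card ≤ M + L := by
      intro g S hx
      obtain ⟨hx1, hx2⟩ := mem_filter.1 hx
      obtain ⟨hg, hS⟩ := mem_sigma.1 hx1
      simp only at hg hS
      obtain ⟨hS1, hS2, hS3, hS4⟩ := h𝓢 g hg S hS
      have hx3 : put p S g = h := hx2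
      refine ⟨?_, hS3, ?_⟩
      · intro k hk
        rw [pl, mem_filter, ← hx3]
        refine ⟨mem_univ _, Or.inl ?_⟩
        unfold put
        rw [if_pos hk]
      · have h4 : pl p p' h ⊆ pl p p' g ∪ S := by
          intro k hk
          rw [mem_union]
          by_cases hkS : k ∈ S
          · exact Or.inr hkS
          · refine Or.inl ?_
            rw [pl, mem_filter, ← hx3] at hk
            unfold put at hk
            rw [if_neg hkS] at hk
            rw [pl, mem_filter]
            exact hk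
        have h5 := (card_le_card h4).trans (card_union_le _ _)
        have h6 := (mem_filter.1 hg).2.2
        omega
    have h7 : (T.filter fun x => f x = h) ⊆ ((pl p p' h).powerset.filter fun S => S.card ≤ L).biUnion
        fun S => (univ.filter fun g : Fin n → I => put p S g = h).image fun g => ⟨g, S⟩ := by
      rintro ⟨g, S⟩ hx
      obtain ⟨h8, h9, -⟩ := hsub g S hx
      rw [mem_biUnion]
      refine ⟨S, mem_filter.2 ⟨mem_powerset.2 h8, h9⟩, ?_⟩
      rw [mem_image]
      exact ⟨g, mem_filter.2 ⟨mem_univ _, (mem_filter.1 hx).2⟩, rfl⟩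
    refine (card_le_card h7).trans (card_biUnion_le.trans ?_)
    have h8 : ∀ S ∈ (pl p p' h).powerset.filter (fun S => S.card ≤ L),
        ((univ.filter fun g : Fin n → I => put p S g = h).image
          fun g => (⟨g, S⟩ : Σ _ : Fin n → I, Finset (Fin n))).card ≤ Fintype.card I ^ L := by
      intro S hS
      refine card_image_le.trans ((fiber_card p S h).trans ?_)
      exact Nat.pow_le_pow_right hI (mem_filter.1 hS).2
    refine (sum_le_sum h8).trans ?_
    rw [sum_const, smul_eq_mul]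
    refine Nat.mul_le_mul_right _ ((card_filter_le _ _).trans ?_)
    rw [card_powerset]
    refine Nat.pow_le_pow_right (by norm_num) ?_
    exact (hsub g₀ S₀ (mem_filter.2 ⟨hx₀, hh₀⟩)).2.2
  rw [← hT]
  exact (card_le_mul_card_image T _ hfib).trans (Nat.mul_le_mul_left _ (card_le_card himg))

/-- **Anticoncentration on the zero-sum families.** -/
theorem ratio_tendsto (a : I → ℤ) (hp : w p = 0) (hp' : w p' = 0) (ha : a p = a p' + 2) :
    Tendsto (fun n : ℕ => ((univ.filter fun g : Fin n → I => ∑ k, w (g k) = 0 ∧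
      (∑ k, a (g k) = 0 ∨ ∑ k, a (g k) = 1)).card : ℝ) /
      (univ.filter fun g : Fin n → I => ∑ k, w (g k) = 0).card) atTop (𝓝 0) := by
  classical
  have hne : p ≠ p' := fun h => by
    rw [h] at ha
    omega
  obtain ⟨L, hL⟩ := rare w p p' hp hp'
  rw [Metric.tendsto_atTop]
  intro ε hε
  -- the choice of `M`
  obtain ⟨M, hM⟩ : ∃ M : ℕ, 1 / √((M : ℝ) + 1) < ε / 2 := by
    have h1 : Tendsto (fun M : ℕ => 1 / √((M : ℝ) + 1)) atTop (𝓝 0) := by
      have h2 : Tendsto (fun M : ℕ => √((M : ℝ) + 1)) atTop atTop :=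
        Real.tendsto_sqrt_atTop.comp (tendsto_atTop_add_const_right _ _ tendsto_natCast_atTop_atTop)
      exact (h2.inv_tendsto_atTop).congr fun M => (one_div _).symm
    have h3 := (h1.eventually_lt_const (by positivity : (0 : ℝ) < ε / 2)).exists
    exact h3
  set C : ℝ := (2 : ℝ) ^ (M + L) * (Fintype.card I : ℝ) ^ L with hC
  obtain ⟨N, hN⟩ := exists_nat_gt (C / (ε / 2))
  have hC0 : 0 ≤ C := by positivity
  have hN0 : (0 : ℝ) < N := lt_of_le_of_lt (by positivity) hN
  refine ⟨M + N * L, fun n hn => ?_⟩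
  set G := univ.filter fun g : Fin n → I => ∑ k, w (g k) = 0 with hG
  set B := univ.filter fun g : Fin n → I => ∑ k, w (g k) = 0 ∧ (pl p p' g).card ≤ M with hB
  have hGpos : (0 : ℝ) < G.card := by
    rw [Nat.cast_pos, card_pos]
    refine ⟨fun _ => p, mem_filter.2 ⟨mem_univ _, ?_⟩⟩
    exact sum_eq_zero fun k _ => hp
  -- the bound for `B`
  have hBb : (B.card : ℝ) ≤ C / N * G.card := by
    have h1 := hL M N n hn
    have h2 : (N : ℝ) * B.card ≤ C * G.card := by
      rw [hC]
      exact_mod_cast h1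
    rw [div_mul_eq_mul_div, le_div_iff₀ hN0]
    linarith
  -- the bound for `A`
  have hA := count_sum hne (fun g : Fin n → I => ∑ k, w (g k) = 0 ∧
    (∑ k, a (g k) = 0 ∨ ∑ k, a (g k) = 1)) (fun g : Fin n → I => ∑ k, w (g k) = 0)
    (fun g R R' h h' => det_reset a ha g R R' h.2 h'.2) (fun g R h => by
      rw [← h]
      refine sum_congr rfl fun k _ => ?_
      unfold reset
      split_ifs with h1 h2
      · rcases h1 with h1 | h1
        · rw [h1]
        · rw [h1, hp, hp']
      · rcases h1 with h1 | h1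
        · rw [h1, hp, hp']
        · rw [h1]
      · rfl) (fun g h => h.1)
  have hs : ∑ g ∈ G, ((pl p p' g).card.choose ((pl p p' g).card / 2) : ℝ) /
      2 ^ (pl p p' g).card ≤ B.card + G.card * (1 / √((M : ℝ) + 1)) := by
    have h1 : ∀ g ∈ G, ((pl p p' g).card.choose ((pl p p' g).card / 2) : ℝ) /
        2 ^ (pl p p' g).card ≤ (if g ∈ B then 1 else 0) + 1 / √((M : ℝ) + 1) := by
      intro g hg
      refine (middle_le _).trans ?_
      by_cases hgB : g ∈ B
      · rw [if_pos hgB]
        have h2 : 1 / √(((pl p p' g).card : ℝ) + 1) ≤ 1 := by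
          rw [div_le_one (Real.sqrt_pos.2 (by positivity)), Real.one_le_sqrt]
          have : (0 : ℝ) ≤ (pl p p' g).card := by positivity
          linarith
        have h3 : 0 ≤ 1 / √((M : ℝ) + 1) := by positivity
        linarith
      · rw [if_neg hgB, zero_add]
        have h4 : M ≤ (pl p p' g).card := by
          by_contra hcon
          exact hgB (mem_filter.2 ⟨mem_univ _, (mem_filter.1 hg).2, by omega⟩)
        refine one_div_le_one_div_of_le (Real.sqrt_pos.2 (by positivity)) (Real.sqrt_le_sqrt ?_)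
        have : (M : ℝ) ≤ (pl p p' g).card := by exact_mod_cast h4
        linarith
    refine (sum_le_sum h1).trans (le_of_eq ?_)
    rw [sum_add_distrib, sum_const, nsmul_eq_mul]
    congr 1
    rw [sum_ite_mem, sum_const, nsmul_eq_mul, mul_one]
    congr 2
    rw [inter_eq_right]
    intro g hg
    exact mem_filter.2 ⟨mem_univ _, (mem_filter.1 hg).2.1⟩
  have hfin := hA.trans hs
  rw [Real.dist_eq, sub_zero, abs_of_nonneg (by positivity), div_lt_iff₀ hGpos]
  refine lt_of_le_of_lt hfin ?_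
  have h9 : C / N < ε / 2 := by
    rw [div_lt_iff₀ hN0]
    rw [div_lt_iff₀ (by positivity)] at hN
    linarith
  nlinarith

end

end Pool.Agent.N536.FS
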