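import Pool.Agent.N536.FS.TDefs
import Pool.Agent.N536.FS.Part
import Pool.Agent.N536.FS.Zero

/-!
# Tate classes on the powers of a variety
-/

set_option autoImplicit false
set_option linter.unusedSectionVars false

open Module TensorProduct Filter Topology

namespace Pool.Agent.N536.FS

universe u v w

open Pool.Agent.Y163.MW

section

variable {Ω : Type w} [Field Ω] [CharZero Ω]

/-- The part of `H^m` for the generalised eigenvalue `α`. -/
def pc (R : FCoh.{v, w} Ω) (p : ℕ × Ω) : Submodule Ω R.V := R.gr p.1 ⊓ R.F.maxGenEigenspace p.2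

variable {R R' R'' : FCoh.{v, w} Ω}

theorem indep_pc (hR : R.IsFCoh) : iSupIndep (pc R) :=
  iSupIndep_inf hR.isInternal.submodule_iSupIndep (Module.End.independent_maxGenEigenspace R.F)

theorem iSup_pc [IsAlgClosed Ω] (hR : R.IsFCoh) : ⨆ p, pc R p = ⊤ := by
  have := hR.finite
  rw [eq_top_iff, ← hR.isInternal.submodule_iSup_eq_top]
  refine iSup_le fun m => ?_
  have h := Submodule.eq_iSup_inf_genEigenspace (f := R.F) ⊤ (hR.F_gr m)
    (Module.End.iSup_maxGenEigenspace_eq_top R.F)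
  rw [h]
  exact iSup_le fun α => le_iSup (pc R) (m, α)

/-- There is a multiplicative Jordan decomposition `F = S exp(N)` and a basis which consists of
weight vectors of weights `a i` for a representation of `sl(2)` with lowering operator `N`, of
degree and eigenvalue `τ i`; the operator `N` respects the degrees and the eigenvalues. -/
def JTyp (R : FCoh.{v, w} Ω) {I : Type} (a : I → ℤ) (τ : I → ℕ × Ω) : Prop :=
  ∃ (S N e h : Module.End Ω R.V) (b : Basis I Ω R.V), IsMJ R.F S N ∧ IsSl2 N b a e h ∧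
    ∀ i, b i ∈ R.gr (τ i).1 ∧ S (b i) = (τ i).2 • b i ∧
      N (b i) ∈ Submodule.span Ω (b '' {j | τ j = τ i ∧ a j = a i - 2})

theorem JTyp.reindex {I J : Type} {a : I → ℤ} {τ : I → ℕ × Ω} (H : JTyp R a τ) (E : I ≃ J)
    (a' : J → ℤ) (τ' : J → ℕ × Ω) (ha : ∀ j, a' j = a (E.symm j))
    (hτ : ∀ j, τ' j = τ (E.symm j)) : JTyp R a' τ' := by
  obtain ⟨S, N, e, h, b, hJ, hs, hb⟩ := H
  refine ⟨S, N, e, h, b.reindex E, hJ, ⟨fun j => ?_, hs.eN, hs.hN, hs.he⟩, fun j => ?_⟩
  · rw [Basis.reindex_apply, ha]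
    exact hs.wt _
  · obtain ⟨h1, h2, h3⟩ := hb (E.symm j)
    rw [Basis.reindex_apply, hτ]
    refine ⟨h1, h2, Submodule.span_mono ?_ h3⟩
    rintro _ ⟨i, ⟨hi1, hi2⟩, rfl⟩
    refine ⟨E i, ⟨?_, ?_⟩, ?_⟩
    · rw [hτ, E.symm_apply_apply, hi1]
    · rw [ha, ha, E.symm_apply_apply, hi2]
    · rw [Basis.reindex_apply, E.symm_apply_apply]

theorem JTyp.prod {I J : Type} {a : I → ℤ} {τ : I → ℕ × Ω} {a' : J → ℤ} {τ' : J → ℕ × Ω}
    (H : JTyp R a τ) (H' : JTyp R' a' τ') {κ : R.V ⊗[Ω] R'.V ≃ₗ[Ω] R''.V}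
    (hκ : IsFKunneth R R' R'' κ) :
    JTyp R'' (fun p : I × J => a p.1 + a' p.2)
      (fun p : I × J => ((τ p.1).1 + (τ' p.2).1, (τ p.1).2 * (τ' p.2).2)) := by
  obtain ⟨S, N, e, h, b, hJ, hs, hb⟩ := H
  obtain ⟨S', N', e', h', b', hJ', hs', hb'⟩ := H'
  have h1 := Pool.Agent.Y210.MW.t_B3 Ω R.V R'.V N I b a e h N' J b' a' e' h' hs hs'
  have hκF : ∀ z, R''.F (κ z) = κ (TensorProduct.map R.F R'.F z) := by
    intro z
    induction z using TensorProduct.induction_on with
    | zero => simp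
    | tmul x y => exact hκ.frob x y
    | add x y hx hy => rw [map_add, map_add, map_add, map_add, hx, hy]
  have h2 := (hJ.tensor hJ').conj κ (F' := R''.F) (S' := κ.conj (TensorProduct.map S S'))
    (N' := κ.conj (TensorProduct.map N LinearMap.id + TensorProduct.map LinearMap.id N')) hκF
    (fun x => by rw [LinearEquiv.conj_apply_apply, κ.symm_apply_apply])
    (fun x => by rw [LinearEquiv.conj_apply_apply, κ.symm_apply_apply])
  refine ⟨_, _, _, _, _, h2, h1.map κ (fun x => by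
    rw [LinearEquiv.conj_apply_apply, κ.symm_apply_apply]), ?_⟩
  rintro ⟨i, j⟩
  obtain ⟨c1, c2, c3⟩ := hb i
  obtain ⟨d1, d2, d3⟩ := hb' j
  have hv : ∀ i j, ((b.tensorProduct b').map κ) (i, j) = κ (b i ⊗ₜ[Ω] b' j) := fun i j => by
    rw [Basis.map_apply, Basis.tensorProduct_apply]
  rw [hv]
  refine ⟨hκ.degree _ _ _ _ c1 d1, ?_, ?_⟩
  · rw [LinearEquiv.conj_apply_apply, κ.symm_apply_apply, TensorProduct.map_tmul, c2, d2,
      TensorProduct.smul_tmul_smul, map_smul]
  · rw [LinearEquiv.conj_apply_apply, κ.symm_apply_apply, LinearMap.add_apply,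
      TensorProduct.map_tmul, TensorProduct.map_tmul, LinearMap.id_apply, LinearMap.id_apply,
      map_add]
    refine Submodule.add_mem _ ?_ ?_
    · have h3 : Submodule.span Ω (b '' {j | τ j = τ i ∧ a j = a i - 2}) ≤
          (Submodule.span Ω ((b.tensorProduct b').map κ '' {p : I × J |
            ((τ p.1).1 + (τ' p.2).1, (τ p.1).2 * (τ' p.2).2) =
              ((τ i).1 + (τ' j).1, (τ i).2 * (τ' j).2) ∧
              a p.1 + a' p.2 = a i + a' j - 2})).comap
            (κ.toLinearMap ∘ₗ (TensorProduct.mk Ω R.V R'.V).flip (b' j)) := by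
        rw [Submodule.span_le]
        rintro _ ⟨i', ⟨hi1, hi2⟩, rfl⟩
        refine Submodule.subset_span ⟨(i', j), ⟨?_, ?_⟩, hv i' j⟩
        · simp only [hi1]
        · simp only [hi2]
          ring
      exact h3 c3
    · have h3 : Submodule.span Ω (b' '' {j' | τ' j' = τ' j ∧ a' j' = a' j - 2}) ≤
          (Submodule.span Ω ((b.tensorProduct b').map κ '' {p : I × J |
            ((τ p.1).1 + (τ' p.2).1, (τ p.1).2 * (τ' p.2).2) =
              ((τ i).1 + (τ' j).1, (τ i).2 * (τ' j).2) ∧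
              a p.1 + a' p.2 = a i + a' j - 2})).comap
            (κ.toLinearMap ∘ₗ (TensorProduct.mk Ω R.V R'.V) (b i)) := by
        rw [Submodule.span_le]
        rintro _ ⟨j', ⟨hi1, hi2⟩, rfl⟩
        refine Submodule.subset_span ⟨(i, j'), ⟨?_, ?_⟩, hv i j'⟩
        · simp only [hi1]
        · simp only [hi2]
          ring
      exact h3 d3

/-- The data for a variety. -/
theorem exists_jtyp [IsAlgClosed Ω] (hR : R.IsFCoh) :
    ∃ (S N : Module.End Ω R.V) (T : Strings (fun _ => (⊤ : Submodule Ω R.V)) N)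
      (ty : T.ι → ℕ × Ω), IsMJ R.F S N ∧ (∀ s i, T.b ⟨s, i⟩ ∈ pc R (ty s)) ∧
      JTyp R T.ct (fun p => ty p.1) := by
  have := hR.finite
  obtain ⟨S, N, hJ, hc⟩ := exists_mj R.F hR.F_inj
  have hN : ∀ c, ∀ x ∈ pc R c, N x ∈ pc R c := by
    rintro ⟨m, α⟩ x ⟨hx1, hx2⟩
    refine ⟨?_, ?_⟩
    · exact stable_of_commute hR.isInternal.submodule_iSupIndep
        hR.isInternal.submodule_iSup_eq_top hR.F_gr (fun Z hZ => (hc Z hZ).2) m x hx1
    · exact Module.End.mapsTo_maxGenEigenspace_of_comm hJ.commute.2 α hx2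
  obtain ⟨T, ty, hT⟩ := exists_typed (indep_pc hR) (iSup_pc hR) N hN hJ.nil
  obtain ⟨e, h, hs⟩ := Pool.Agent.Y664.MW.t_B2 Ω R.V _ N T
  refine ⟨S, N, T, ty, hJ, hT, S, N, e, h, T.b, hJ, hs, ?_⟩
  rintro ⟨s, i⟩
  obtain ⟨h1, h2⟩ := Submodule.mem_inf.1 (hT s i)
  refine ⟨h1, Module.End.mem_eigenspace_iff.1 (hJ.gen_le _ h2), ?_⟩
  refine Submodule.span_mono (Set.image_mono ?_) (N_mem T ⟨s, i⟩)
  rintro p ⟨hp1, hp2⟩
  exact ⟨congrArg ty hp1, hp2⟩

section

variable {I : Type} [Fintype I] {a : I → ℤ} {τ : I → ℕ × Ω} (q : ℕ)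

/-- The type of a Tate class. -/
def IsTate (q : ℕ) (t : ℕ × Ω) : Prop := ∃ j : ℕ, t = (2 * j, (q : Ω) ^ j)

theorem JTyp.gen_eq (hR : R.IsFCoh) (H : JTyp R a τ) :
    R.genTateDim q = Nat.card {i // IsTate q (τ i)} ∧
    R.tateDim q ≤ Nat.card {i // IsTate q (τ i) ∧ (a i = 0 ∨ a i = 1)} := by
  classical
  obtain ⟨S, N, e, h, b, hJ, hs, hb⟩ := H
  have := Module.Finite.of_basis b
  have hpc : ∀ i, b i ∈ pc R (τ i) := fun i =>
    Submodule.mem_inf.2 ⟨(hb i).1, hJ.le_gen _ (Module.End.mem_eigenspace_iff.2 (hb i).2.1)⟩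
  have hgen : R.genTateClasses q = Submodule.span Ω (b '' {i | IsTate q (τ i)}) := by
    have h1 : ∀ j : ℕ, R.gr (2 * j) ⊓ R.F.maxGenEigenspace ((q : Ω) ^ j) =
        Submodule.span Ω (b '' {i | τ i = (2 * j, (q : Ω) ^ j)}) := fun j =>
      gr_eq_span (indep_pc hR) b τ hpc (2 * j, (q : Ω) ^ j)
    unfold FCoh.genTateClasses
    rw [iSup_congr h1, ← Submodule.span_iUnion, ← Set.image_iUnion]
    congr 2
    ext i
    simp only [Set.mem_iUnion, Set.mem_ofPred_eq]
    rfl
  refine ⟨?_, ?_⟩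
  · unfold FCoh.genTateDim
    rw [hgen, finrank_span_image]
    rfl
  · refine le_trans (Submodule.finrank_mono ?_) (part_count hs (fun i => IsTate q (τ i)) ?_)
    · refine le_inf ?_ ?_
      · rw [← hgen]
        refine iSup_mono fun j => inf_le_inf_left _ ?_
        exact Module.End.eigenspace_le_maxGenEigenspace
      · refine iSup_le fun j => ?_
        rintro x ⟨-, hx⟩
        have h1 := hJ.gen_le _ (Module.End.eigenspace_le_maxGenEigenspace hx)
        have h2 := (hJ.mem_iff (Module.End.mem_eigenspace_iff.1 h1) 1).1 (by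
          rw [Nat.cast_one]
          exact hx)
        rwa [pow_one] at h2
    · intro i
      refine Submodule.span_mono (Set.image_mono ?_) (hb i).2.2
      rintro j ⟨hj1, hj2⟩
      exact ⟨by rw [hj1], hj2⟩

/-- The Tate classes and semisimplicity. -/
theorem tate_iff [IsAlgClosed Ω] (hR : R.IsFCoh) :
    R.tateDim q ≤ R.genTateDim q ∧
      ((∀ j, R.SemisimpleAt q j) ↔ R.tateDim q = R.genTateDim q) := by
  have := hR.finite
  have hle : R.tateClasses q ≤ R.genTateClasses q := by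
    refine iSup_mono fun j => inf_le_inf_left _ ?_
    exact Module.End.eigenspace_le_maxGenEigenspace
  refine ⟨Submodule.finrank_mono hle, ?_, ?_⟩
  · intro h
    unfold FCoh.tateDim FCoh.genTateDim FCoh.tateClasses FCoh.genTateClasses
    rw [iSup_congr fun j => h j]
  · intro h j
    obtain ⟨S, N, hJ, -⟩ := exists_mj R.F hR.F_inj
    have h1 : R.tateClasses q = R.genTateClasses q := Submodule.eq_of_le_of_finrank_eq hle h
    have h2 : R.tateClasses q ≤ LinearMap.ker N := by
      refine iSup_le fun j => ?_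
      rintro x ⟨-, hx⟩
      have h1 := hJ.gen_le _ (Module.End.eigenspace_le_maxGenEigenspace hx)
      have h2 := (hJ.mem_iff (Module.End.mem_eigenspace_iff.1 h1) 1).1 (by
        rw [Nat.cast_one]
        exact hx)
      rwa [pow_one] at h2
    apply le_antisymm
    · rintro x ⟨hx1, hx2⟩
      refine ⟨hx1, ?_⟩
      have h3 : x ∈ LinearMap.ker N := by
        apply h2
        rw [h1]
        exact Submodule.mem_iSup_of_mem j ⟨hx1, hx2⟩
      have h4 := hJ.gen_le _ hx2
      have h5 := (hJ.mem_iff (Module.End.mem_eigenspace_iff.1 h4) 1).2 (by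
        rw [pow_one]
        exact h3)
      rw [Nat.cast_one] at h5
      exact h5
    · exact inf_le_inf_left _ Module.End.eigenspace_le_maxGenEigenspace

end

end

theorem mk_sum' {A : Type*} [AddCommGroup A] (B : AddSubgroup A) {n : ℕ} (f : Fin n → A) :
    ∑ k, (QuotientAddGroup.mk (f k) : A ⧸ B) = QuotientAddGroup.mk (∑ k, f k) :=
  (map_sum (QuotientAddGroup.mk' B) _ _).symm

section

variable {𝒱 : Type u} {prod : 𝒱 → 𝒱 → 𝒱} {Ω : Type w} [Field Ω] [CharZero Ω]
  {P : 𝒱 → Prop} {H : 𝒱 → FCoh.{v, w} Ω}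

theorem powK_mem (hH : IsKTheory prod P H) {X : 𝒱} (hX : P X) : ∀ n, P (powK prod X n)
  | 0 => hX
  | n + 1 => hH.prod_mem X (powK prod X n) hX (powK_mem hH hX n)

theorem jtyp_pow (hH : IsKTheory prod P H) {X : 𝒱} (hX : P X) {I : Type} {a : I → ℤ}
    {τ : I → ℕ × Ω} (h : JTyp (H X) a τ) (n : ℕ) :
    JTyp (H (powK prod X n)) (fun g : Fin (n + 1) → I => ∑ k, a (g k))
      (fun g : Fin (n + 1) → I => (∑ k, (τ (g k)).1, ∏ k, (τ (g k)).2)) := by
  induction n with
  | zero =>
    have h' : JTyp (H (powK prod X 0)) a τ := h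
    refine h'.reindex (Equiv.funUnique (Fin 1) I).symm _ _ (fun g => ?_) (fun g => ?_)
    · simp
    · simp
  | succ n ih =>
    obtain ⟨κ, hκ⟩ := hH.kunneth X (powK prod X n) hX (powK_mem hH hX n)
    have h' : JTyp (H (powK prod X (n + 1)))
        (fun p : I × (Fin (n + 1) → I) => a p.1 + ∑ k, a (p.2 k))
        (fun p : I × (Fin (n + 1) → I) => ((τ p.1).1 + ∑ k, (τ (p.2 k)).1,
          (τ p.1).2 * ∏ k, (τ (p.2 k)).2)) := h.prod ih hκ
    refine h'.reindex (Fin.consEquiv (fun _ => I)) _ _ (fun g => ?_) (fun g => ?_)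
    · rw [Fin.sum_univ_succ]
      rfl
    · rw [Fin.sum_univ_succ, Fin.prod_univ_succ]
      rfl

variable [IsAlgClosed Ω]

/-- If the eigenvalue `q ^ j` on `H^(2 j)` of `X` is not semisimple, then the share of the Tate
classes among the generalised Tate classes of `X ^ n` tends to zero. -/
theorem tate_zero (hH : IsKTheory prod P H) {X : 𝒱} (hX : P X) {q : ℕ} (hq : q ≠ 0)
    (hns : ¬ ∀ j, (H X).SemisimpleAt q j) :
    (∀ n, 0 < (H (powK prod X n)).genTateDim q) ∧
    Tendsto (fun n : ℕ => ((H (powK prod X n)).tateDim q : ℝ) /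
      (H (powK prod X n)).genTateDim q) atTop (𝓝 0) := by
  classical
  have hR := hH.coh X hX
  have := hR.finite
  obtain ⟨S, N, T, ty, hJ, hT, hA⟩ := exists_jtyp hR
  have hqΩ : (q : Ω) ≠ 0 := Nat.cast_ne_zero.2 hq
  -- the eigenvalues are not zero
  have hne : ∀ p : T.P, (ty p.1).2 ≠ 0 := by
    rintro ⟨s, i⟩
    have h1 := hJ.gen_le _ (Submodule.mem_inf.1 (hT s i)).2
    exact hJ.ne_zero (Module.End.mem_eigenspace_iff.1 h1) (T.b.ne_zero _)
  -- the classes modulo Tate twists
  let A : Type w := Additive Ωˣ × ℤ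
  let tw : A := (Additive.ofMul (Units.mk0 (q : Ω) hqΩ), 2)
  let w0 : T.P → A := fun p => (Additive.ofMul (Units.mk0 (ty p.1).2 (hne p)), ((ty p.1).1 : ℤ))
  let w : T.P → A ⧸ AddSubgroup.zmultiples tw := fun p => QuotientAddGroup.mk (w0 p)
  have hw : ∀ (n : ℕ) (g : Fin n → T.P), (∑ k, w (g k) = 0 ↔
      IsTate q (∑ k, (ty (g k).1).1, ∏ k, (ty (g k).1).2)) := by
    intro n g
    have h1 : ∑ k, w (g k) = QuotientAddGroup.mk (s := AddSubgroup.zmultiples tw)
        (∑ k, w0 (g k)) := mk_sum' _ _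
    rw [h1, QuotientAddGroup.eq_zero_iff, AddSubgroup.mem_zmultiples_iff]
    have h2 : ∑ k, w0 (g k) = (Additive.ofMul (∏ k, Units.mk0 (ty (g k).1).2 (hne (g k))),
        ∑ k, ((ty (g k).1).1 : ℤ)) := by
      refine Prod.ext ?_ ?_
      · rw [Prod.fst_sum]
        rfl
      · rw [Prod.snd_sum]
    rw [h2]
    constructor
    · rintro ⟨z, hz⟩
      have h3 := congrArg Prod.fst hz
      have h4 := congrArg Prod.snd hz
      have h5 : z * 2 = ∑ k, ((ty (g k).1).1 : ℤ) := by
        have : z • (2 : ℤ) = ∑ k, ((ty (g k).1).1 : ℤ) := h4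
        rwa [smul_eq_mul] at this
      have h6 : 0 ≤ z := by
        have h7 : (0 : ℤ) ≤ ∑ k, ((ty (g k).1).1 : ℤ) :=
          Finset.sum_nonneg fun k _ => Int.natCast_nonneg _
        omega
      obtain ⟨j, rfl⟩ := Int.eq_ofNat_of_zero_le h6
      refine ⟨j, Prod.ext ?_ ?_⟩
      · simp only
        have h8 : ((∑ k, (ty (g k).1).1 : ℕ) : ℤ) = 2 * j := by
          push_cast
          rw [← h5]
          push_cast
          ring
        exact_mod_cast h8
      · simp only
        have h8 : (Units.mk0 (q : Ω) hqΩ) ^ j = ∏ k, Units.mk0 (ty (g k).1).2 (hne (g k)) := by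
          have h9 : ((j : ℤ)) • (Additive.ofMul (Units.mk0 (q : Ω) hqΩ)) =
            Additive.ofMul (∏ k, Units.mk0 (ty (g k).1).2 (hne (g k))) := h3
          rw [natCast_zsmul, ← ofMul_pow] at h9
          exact Additive.ofMul.injective h9
        have h10 := congrArg Units.val h8
        rw [Units.val_pow_eq_pow_val, Units.coe_prod] at h10
        exact h10.symm
    · rintro ⟨j, hj⟩
      have h3 := congrArg Prod.fst hj
      have h4 := congrArg Prod.snd hj
      simp only at h3 h4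
      refine ⟨j, Prod.ext ?_ ?_⟩
      · show ((j : ℤ)) • (Additive.ofMul (Units.mk0 (q : Ω) hqΩ)) =
            Additive.ofMul (∏ k, Units.mk0 (ty (g k).1).2 (hne (g k)))
        rw [natCast_zsmul, ← ofMul_pow]
        congr 1
        apply Units.ext
        rw [Units.val_pow_eq_pow_val, Units.coe_prod]
        exact h4.symm
      · show (j : ℤ) • (2 : ℤ) = ∑ k, ((ty (g k).1).1 : ℤ)
        rw [smul_eq_mul]
        have : ((∑ k, (ty (g k).1).1 : ℕ) : ℤ) = 2 * j := by
          rw [h3]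
          push_cast
          ring
        push_cast at this
        rw [this]
        ring
  -- a string of length at least one which consists of generalised Tate classes
  obtain ⟨s, hs1, hs2⟩ : ∃ s, IsTate q (ty s) ∧ 1 ≤ T.len s := by
    by_contra hcon
    push Not at hcon
    apply hns
    intro j
    apply le_antisymm
    · rintro x ⟨hx1, hx2⟩
      refine ⟨hx1, ?_⟩
      have hpc : ∀ p : T.P, T.b p ∈ pc (H X) (ty p.1) := fun p => hT p.1 p.2
      have h1 : x ∈ pc (H X) (2 * j, (q : Ω) ^ j) := ⟨hx1, hx2⟩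
      rw [gr_eq_span (indep_pc hR) T.b (fun p => ty p.1) hpc] at h1
      have h2 : Submodule.span Ω (T.b '' {p | ty p.1 = (2 * j, (q : Ω) ^ j)}) ≤
          LinearMap.ker N := by
        rw [Submodule.span_le]
        rintro _ ⟨⟨s, i⟩, hp, rfl⟩
        have h3 := hcon s ⟨j, hp⟩
        have h4 : i = Fin.last (T.len s) := by
          apply Fin.ext
          have := i.2
          rw [Fin.val_last]
          omega
        rw [h4]
        exact LinearMap.mem_ker.2 (T.last s)
      have h3 := h2 h1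
      have h4 := hJ.gen_le _ hx2
      have h5 := (hJ.mem_iff (Module.End.mem_eigenspace_iff.1 h4) 1).2 (by
        rw [pow_one]
        exact h3)
      rw [Nat.cast_one] at h5
      exact h5
    · exact inf_le_inf_left _ Module.End.eigenspace_le_maxGenEigenspace
  let p : T.P := ⟨s, ⟨0, by omega⟩⟩
  let p' : T.P := ⟨s, ⟨1, by omega⟩⟩
  have hpp : T.ct p = T.ct p' + 2 := by
    unfold Strings.ct
    simp [p, p']
  have hw1 : ∀ p : T.P, IsTate q (ty p.1) → w p = 0 := by
    intro p hp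
    have h1 := (hw 1 (fun _ => p)).2 (by simpa using hp)
    rw [Fin.sum_univ_one] at h1
    exact h1
  have hwp : w p = 0 := hw1 p hs1
  have hwp' : w p' = 0 := hw1 p' hs1
  have hlim := ratio_tendsto w p p' T.ct hwp hwp' hpp
  have hpow := fun n => (jtyp_pow hH hX hA n).gen_eq q (hH.coh _ (powK_mem hH hX n))
  have hg : ∀ n, (H (powK prod X n)).genTateDim q =
      (Finset.univ.filter fun g : Fin (n + 1) → T.P => ∑ k, w (g k) = 0).card := by
    intro n
    rw [(hpow n).1, Nat.card_eq_fintype_card, Fintype.card_subtype]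
    congr 1
    ext g
    simp only [Finset.mem_filter, Finset.mem_univ, true_and]
    exact (hw (n + 1) g).symm
  have ht : ∀ n, (H (powK prod X n)).tateDim q ≤
      (Finset.univ.filter fun g : Fin (n + 1) → T.P => ∑ k, w (g k) = 0 ∧
        (∑ k, T.ct (g k) = 0 ∨ ∑ k, T.ct (g k) = 1)).card := by
    intro n
    refine (hpow n).2.trans (le_of_eq ?_)
    rw [Nat.card_eq_fintype_card, Fintype.card_subtype]
    congr 1
    ext g
    simp only [Finset.mem_filter, Finset.mem_univ, true_and]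
    rw [← hw (n + 1) g]
  have hpos : ∀ n, 0 < (H (powK prod X n)).genTateDim q := by
    intro n
    rw [hg n, Finset.card_pos]
    refine ⟨fun _ => p, Finset.mem_filter.2 ⟨Finset.mem_univ _, ?_⟩⟩
    exact Finset.sum_eq_zero fun k _ => hwp
  refine ⟨hpos, ?_⟩
  refine squeeze_zero (fun n => by positivity) (fun n => ?_) ((tendsto_add_atTop_iff_nat 1).2 hlim)
  rw [hg n]
  exact div_le_div_of_nonneg_right (by exact_mod_cast ht n) (by positivity)

end

end Pool.Agent.N536.FS
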